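import Mathlib

/-!
Standard free factors of a free group, closed sets of letters for an automorphism, gluing.
-/

namespace Pool.Agent.MP_8fc759_al.H44

open FreeGroup Set

variable {X Y : Type}

/-- The subgroup generated by a set of letters. -/
def Fs (S : Set X) : Subgroup (FreeGroup X) := Subgroup.closure (FreeGroup.of '' S)

lemma of_mem_Fs {S : Set X} {x : X} (h : x ∈ S) : of x ∈ Fs S :=
  Subgroup.subset_closure ⟨x, h, rfl⟩

lemma Fs_mono {S T : Set X} (h : S ⊆ T) : Fs S ≤ Fs T :=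
  Subgroup.closure_mono (image_mono h)

lemma mem_Fs_univ (g : FreeGroup X) : g ∈ Fs (univ : Set X) := by
  unfold Fs
  rw [image_univ, closure_range_of]
  trivial

lemma map_mem_of_Fs {H : Type*} [Group H] {F : Type*} [FunLike F (FreeGroup X) H]
    [MonoidHomClass F (FreeGroup X) H] (f : F) {S : Set X} {K : Subgroup H}
    (h : ∀ x ∈ S, f (of x) ∈ K) {g : FreeGroup X} (hg : g ∈ Fs S) : f g ∈ K := by
  induction hg using Subgroup.closure_induction with
  | mem x hx => obtain ⟨y, hy, rfl⟩ := hx; exact h y hy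
  | one => rw [_root_.map_one]; exact K.one_mem
  | mul a b _ _ ha hb => rw [_root_.map_mul]; exact K.mul_mem ha hb
  | inv a _ ha => rw [_root_.map_inv]; exact K.inv_mem ha

lemma eq_of_Fs {H : Type*} [Group H] {F F' : Type*} [FunLike F (FreeGroup X) H]
    [MonoidHomClass F (FreeGroup X) H] [FunLike F' (FreeGroup X) H]
    [MonoidHomClass F' (FreeGroup X) H] (f : F) (f' : F') {S : Set X}
    (h : ∀ x ∈ S, f (of x) = f' (of x)) {g : FreeGroup X} (hg : g ∈ Fs S) : f g = f' g := by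
  induction hg using Subgroup.closure_induction with
  | mem x hx => obtain ⟨y, hy, rfl⟩ := hx; exact h y hy
  | one => rw [_root_.map_one, _root_.map_one]
  | mul a b _ _ ha hb => rw [_root_.map_mul, _root_.map_mul, ha, hb]
  | inv a _ ha => rw [_root_.map_inv, _root_.map_inv, ha]

lemma fix_of_Fs {F : Type*} [FunLike F (FreeGroup X) (FreeGroup X)]
    [MonoidHomClass F (FreeGroup X) (FreeGroup X)] (f : F) {S : Set X}
    (h : ∀ x ∈ S, f (of x) = of x) {g : FreeGroup X} (hg : g ∈ Fs S) : f g = g :=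
  eq_of_Fs f (MonoidHom.id _) h hg

lemma exists_finite_support (g : FreeGroup X) : ∃ T : Set X, T.Finite ∧ g ∈ Fs T := by
  induction g using FreeGroup.induction_on with
  | C1 => exact ⟨∅, finite_empty, Subgroup.one_mem _⟩
  | of x => exact ⟨{x}, finite_singleton x, of_mem_Fs rfl⟩
  | inv_of x _ => exact ⟨{x}, finite_singleton x, Subgroup.inv_mem _ (of_mem_Fs rfl)⟩
  | mul a b ha hb =>
    obtain ⟨S, hS, ha⟩ := ha
    obtain ⟨T, hT, hb⟩ := hb
    exact ⟨S ∪ T, hS.union hT,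
      Subgroup.mul_mem _ (Fs_mono subset_union_left ha) (Fs_mono subset_union_right hb)⟩

lemma exists_finite_support' {α : Type*} {A : Set α} (hA : A.Finite) (g : α → FreeGroup X) :
    ∃ T : Set X, T.Finite ∧ ∀ a ∈ A, g a ∈ Fs T := by
  choose T hT hg using fun a => exists_finite_support (g a)
  exact ⟨⋃ a ∈ A, T a, hA.biUnion fun a _ => hT a,
    fun a ha => Fs_mono (subset_biUnion_of_mem (u := T) ha) (hg a)⟩

open Classical in
/-- The retraction onto the factor on `S`. -/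
noncomputable def retr (S : Set X) : FreeGroup X →* FreeGroup X :=
  lift fun x => if x ∈ S then of x else 1

lemma retr_of_mem {S : Set X} {x : X} (h : x ∈ S) : retr S (of x) = of x := by
  simp [retr, h]

lemma retr_of_notMem {S : Set X} {x : X} (h : x ∉ S) : retr S (of x) = 1 := by
  simp [retr, h]

lemma retr_mem (S : Set X) (g : FreeGroup X) : retr S g ∈ Fs S := by
  refine map_mem_of_Fs (retr S) (fun x _ => ?_) (mem_Fs_univ g)
  by_cases h : x ∈ S
  · rw [retr_of_mem h]; exact of_mem_Fs h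
  · rw [retr_of_notMem h]; exact Subgroup.one_mem _

lemma mem_Fs_inter {S T : Set X} {g : FreeGroup X} (h1 : g ∈ Fs S) (h2 : g ∈ Fs T) :
    g ∈ Fs (S ∩ T) := by
  rw [← fix_of_Fs (retr S) (fun x hx => retr_of_mem hx) h1]
  refine map_mem_of_Fs (retr S) (fun x hx => ?_) h2
  by_cases h : x ∈ S
  · rw [retr_of_mem h]; exact of_mem_Fs ⟨h, hx⟩
  · rw [retr_of_notMem h]; exact Subgroup.one_mem _

/-- Automorphisms of the free group on `X`. -/
abbrev Aut (X : Type) := MulAut (FreeGroup X)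

/-- An automorphism acting trivially on the abelianization. -/
def IA (γ : Aut X) : Prop := ∀ g, Abelianization.of (γ g) = Abelianization.of g

lemma IA_iff {γ : Aut X} : IA γ ↔ ∀ g, γ g * g⁻¹ ∈ commutator (FreeGroup X) := by
  refine forall_congr' fun g => ?_
  rw [← Abelianization.ker_of, MonoidHom.mem_ker, _root_.map_mul, _root_.map_inv, mul_inv_eq_one]

lemma IA_of_gen {γ : Aut X}
    (h : ∀ x, Abelianization.of (γ (of x)) = Abelianization.of (of x)) : IA γ := fun g =>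
  eq_of_Fs (Abelianization.of.comp γ.toMonoidHom) Abelianization.of (fun x _ => h x)
    (mem_Fs_univ g)

lemma IA.one : IA (1 : Aut X) := fun _ => rfl

lemma IA.mul {γ δ : Aut X} (h1 : IA γ) (h2 : IA δ) : IA (γ * δ) := fun g => by
  rw [MulAut.mul_apply, h1, h2]

lemma IA.inv {γ : Aut X} (h : IA γ) : IA γ⁻¹ := fun g => by
  rw [← h (γ⁻¹ g), MulAut.apply_inv_self]

lemma ab_congr {H : Type*} [CommGroup H] (q : FreeGroup X →* H) {a b : FreeGroup X}
    (h : Abelianization.of a = Abelianization.of b) : q a = q b := by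
  rw [← Abelianization.lift_apply_of q, ← Abelianization.lift_apply_of q, h]

lemma IA.conj {γ : Aut X} (h : IA γ) (π : Aut X) : IA (π * γ * π⁻¹) := fun g => by
  rw [MulAut.mul_apply, MulAut.mul_apply]
  have := ab_congr (Abelianization.of.comp π.toMonoidHom) (h (π⁻¹ g))
  simpa using this

/-- The factor on `S` is mapped onto itself. -/
def Closed (γ : Aut X) (S : Set X) : Prop :=
  ∀ x ∈ S, γ (of x) ∈ Fs S ∧ γ⁻¹ (of x) ∈ Fs S

lemma Closed.map {γ : Aut X} {S : Set X} (h : Closed γ S) {g : FreeGroup X} (hg : g ∈ Fs S) :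
    γ g ∈ Fs S := map_mem_of_Fs γ (fun x hx => (h x hx).1) hg

lemma Closed.inv {γ : Aut X} {S : Set X} (h : Closed γ S) : Closed γ⁻¹ S :=
  fun x hx => ⟨(h x hx).2, by rw [inv_inv]; exact (h x hx).1⟩

lemma Closed.mul {γ δ : Aut X} {S : Set X} (h1 : Closed γ S) (h2 : Closed δ S) :
    Closed (γ * δ) S := fun x hx =>
  ⟨h1.map (h2 x hx).1, by rw [mul_inv_rev]; exact h2.inv.map (h1 x hx).2⟩

lemma Closed.inter {γ : Aut X} {S T : Set X} (h1 : Closed γ S) (h2 : Closed γ T) :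
    Closed γ (S ∩ T) := fun x hx =>
  ⟨mem_Fs_inter (h1 x hx.1).1 (h2 x hx.2).1, mem_Fs_inter (h1 x hx.1).2 (h2 x hx.2).2⟩

lemma closed_univ (γ : Aut X) : Closed γ univ := fun _ _ => ⟨mem_Fs_univ _, mem_Fs_univ _⟩

lemma closed_of_local {γ : Aut X} {S : Set X}
    (h : ∀ x ∈ S, ∃ T, x ∈ T ∧ T ⊆ S ∧ Closed γ T) : Closed γ S := fun x hx => by
  obtain ⟨T, hxT, hTS, hT⟩ := h x hx
  exact ⟨Fs_mono hTS (hT x hxT).1, Fs_mono hTS (hT x hxT).2⟩

lemma Closed.union {γ : Aut X} {S T : Set X} (h1 : Closed γ S) (h2 : Closed γ T) :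
    Closed γ (S ∪ T) := closed_of_local fun _ hx =>
  hx.elim (fun h => ⟨S, h, subset_union_left, h1⟩) (fun h => ⟨T, h, subset_union_right, h2⟩)

lemma Closed.inv_eq {γ δ : Aut X} {S : Set X} (h : Closed γ S)
    (e : ∀ x ∈ S, γ (of x) = δ (of x)) {x : X} (hx : x ∈ S) : γ⁻¹ (of x) = δ⁻¹ (of x) := by
  have := eq_of_Fs γ δ e (h x hx).2
  rw [MulAut.apply_inv_self] at this
  conv_rhs => rw [this]
  rw [MulAut.inv_apply_self]

lemma Closed.congr {γ δ : Aut X} {S : Set X} (h : Closed γ S)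
    (e : ∀ x ∈ S, γ (of x) = δ (of x)) : Closed δ S := fun x hx =>
  ⟨e x hx ▸ (h x hx).1, h.inv_eq e hx ▸ (h x hx).2⟩

/-- Every letter of `S` lies in a finite closed subset of `S`. -/
def LF (γ : Aut X) (S : Set X) : Prop :=
  ∀ x ∈ S, ∃ T : Set X, T.Finite ∧ x ∈ T ∧ T ⊆ S ∧ Closed γ T

lemma LF.closed {γ : Aut X} {S : Set X} (h : LF γ S) : Closed γ S :=
  closed_of_local fun x hx => by
    obtain ⟨T, -, h1, h2, h3⟩ := h x hx
    exact ⟨T, h1, h2, h3⟩

lemma LF.congr {γ δ : Aut X} {S : Set X} (h : LF γ S) (e : ∀ x ∈ S, γ (of x) = δ (of x)) :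
    LF δ S := fun x hx => by
  obtain ⟨T, h0, h1, h2, h3⟩ := h x hx
  exact ⟨T, h0, h1, h2, h3.congr fun y hy => e y (h2 hy)⟩

lemma LF.exists_closed {γ : Aut X} {S T : Set X} (h : LF γ S) (hT : T.Finite) (hTS : T ⊆ S) :
    ∃ U : Set X, U.Finite ∧ T ⊆ U ∧ U ⊆ S ∧ Closed γ U := by
  choose! U h0 h1 h2 h3 using h
  refine ⟨⋃ x ∈ T, U x, hT.biUnion fun x hx => h0 x (hTS hx),
    fun x hx => mem_biUnion hx (h1 x (hTS hx)), iUnion₂_subset fun x hx => h2 x (hTS hx),
    closed_of_local fun y hy => ?_⟩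
  obtain ⟨x, hx, hy⟩ := mem_iUnion₂.1 hy
  exact ⟨U x, hy, subset_biUnion_of_mem (u := U) hx, h3 x (hTS hx)⟩

lemma LF.extend {γ : Aut X} {S S' : Set X} (h : LF γ S) (hS : S ⊆ S') (hf : (S' \ S).Finite)
    (hc : Closed γ S') : LF γ S' := by
  intro x hx
  by_cases hxS : x ∈ S
  · obtain ⟨T, h0, h1, h2, h3⟩ := h x hxS
    exact ⟨T, h0, h1, h2.trans hS, h3⟩
  obtain ⟨A, hA, hA'⟩ := exists_finite_support' hf fun y => γ (of y)
  obtain ⟨B, hB, hB'⟩ := exists_finite_support' hf fun y => γ⁻¹ (of y)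
  obtain ⟨U, h0, h1, h2, h3⟩ := h.exists_closed ((hA.union hB).inter_of_left S) inter_subset_right
  refine ⟨U ∪ (S' \ S), h0.union hf, Or.inr ⟨hx, hxS⟩,
    union_subset (h2.trans hS) sdiff_subset, fun y hy => ?_⟩
  rcases hy with hy | hy
  · exact ⟨Fs_mono subset_union_left (h3 y hy).1, Fs_mono subset_union_left (h3 y hy).2⟩
  · constructor
    · refine Fs_mono ?_ (mem_Fs_inter (hA' y hy) (hc y hy.1).1)
      intro z hz
      by_cases hzS : z ∈ S
      · exact Or.inl (h1 ⟨Or.inl hz.1, hzS⟩)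
      · exact Or.inr ⟨hz.2, hzS⟩
    · refine Fs_mono ?_ (mem_Fs_inter (hB' y hy) (hc y hy.1).2)
      intro z hz
      by_cases hzS : z ∈ S
      · exact Or.inl (h1 ⟨Or.inr hz.1, hzS⟩)
      · exact Or.inr ⟨hz.2, hzS⟩

lemma exists_aut (f g : FreeGroup X →* FreeGroup X) (h1 : ∀ x, f (g (of x)) = of x)
    (h2 : ∀ x, g (f (of x)) = of x) : ∃ γ : Aut X, (∀ a, γ a = f a) ∧ ∀ a, γ⁻¹ a = g a :=
  ⟨MonoidHom.toMulEquiv f g (ext_hom _ _ h2) (ext_hom _ _ h1), fun _ => rfl, fun _ => rfl⟩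

/-- Gluing of compatible automorphisms of standard factors. -/
lemma glue {ι : Type*} (γ : ι → Aut X) (S : ι → Set X) (hc : ∀ i, Closed (γ i) (S i))
    (hIA : ∀ i, IA (γ i))
    (hag : ∀ i j x, x ∈ S i → x ∈ S j →
      γ i (of x) = γ j (of x) ∧ (γ i)⁻¹ (of x) = (γ j)⁻¹ (of x)) :
    ∃ δ : Aut X, IA δ ∧ (∀ i, ∀ x ∈ S i, δ (of x) = γ i (of x)) ∧
      ∀ x, (∀ i, x ∉ S i) → δ (of x) = of x := by
  classical
  let f : FreeGroup X →* FreeGroup X :=
    lift fun x => if h : ∃ i, x ∈ S i then γ h.choose (of x) else of x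
  let g : FreeGroup X →* FreeGroup X :=
    lift fun x => if h : ∃ i, x ∈ S i then (γ h.choose)⁻¹ (of x) else of x
  have hf : ∀ i, ∀ x ∈ S i, f (of x) = γ i (of x) := fun i x hx => by
    have h : ∃ i, x ∈ S i := ⟨i, hx⟩
    simp only [f, lift_apply_of, dif_pos h]
    exact (hag _ _ x h.choose_spec hx).1
  have hg : ∀ i, ∀ x ∈ S i, g (of x) = (γ i)⁻¹ (of x) := fun i x hx => by
    have h : ∃ i, x ∈ S i := ⟨i, hx⟩
    simp only [g, lift_apply_of, dif_pos h]
    exact (hag _ _ x h.choose_spec hx).2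
  have hf' : ∀ x, (¬ ∃ i, x ∈ S i) → f (of x) = of x := fun x h => by
    simp only [f, lift_apply_of, dif_neg h]
  have hg' : ∀ x, (¬ ∃ i, x ∈ S i) → g (of x) = of x := fun x h => by
    simp only [g, lift_apply_of, dif_neg h]
  obtain ⟨δ, hδ, -⟩ := exists_aut f g
    (fun x => by
      by_cases h : ∃ i, x ∈ S i
      · obtain ⟨i, hx⟩ := h
        rw [hg i x hx, eq_of_Fs f (γ i) (hf i) (hc i x hx).2, MulAut.apply_inv_self]
      · rw [hg' x h, hf' x h])
    (fun x => by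
      by_cases h : ∃ i, x ∈ S i
      · obtain ⟨i, hx⟩ := h
        rw [hf i x hx, eq_of_Fs g (γ i)⁻¹ (hg i) (hc i x hx).1, MulAut.inv_apply_self]
      · rw [hf' x h, hg' x h])
  refine ⟨δ, IA_of_gen fun x => ?_, fun i x hx => by rw [hδ, hf i x hx],
    fun x hx => by rw [hδ, hf' x (not_exists.2 hx)]⟩
  by_cases h : ∃ i, x ∈ S i
  · obtain ⟨i, hx⟩ := h
    rw [hδ, hf i x hx, hIA i]
  · rw [hδ, hf' x h]

lemma exists_fresh {α β : Type*} {A : Set α} (hA : A.Finite) {W : Set β} (hW : W.Infinite) :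
    ∃ f : α → β, InjOn f A ∧ ∀ a ∈ A, f a ∈ W := by
  classical
  have := hA.to_subtype
  have := hW.to_subtype
  obtain ⟨e⟩ : Nonempty (A ↪ W) := by
    obtain ⟨n, ⟨e⟩⟩ := Finite.exists_equiv_fin A
    exact ⟨e.toEmbedding.trans ((Fin.valEmbedding).trans (Infinite.natEmbedding W))⟩
  obtain ⟨w, -⟩ := hW.nonempty
  refine ⟨fun a => if h : a ∈ A then (e ⟨a, h⟩ : β) else w, fun a ha b hb hab => ?_,
    fun a ha => ?_⟩
  · simp only [dif_pos ha, dif_pos hb] at hab
    exact congrArg Subtype.val (e.injective (Subtype.ext hab))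
  · simp only [dif_pos ha]
    exact (e ⟨a, ha⟩).2

lemma exists_swap {α β : Type*} (A : Set α) (f g : α → β) (hf : InjOn f A) (hg : InjOn g A)
    (hd : ∀ a ∈ A, ∀ b ∈ A, f a ≠ g b) :
    ∃ sw : β → β, Function.Involutive sw ∧ (∀ a ∈ A, sw (f a) = g a) ∧
      (∀ a ∈ A, sw (g a) = f a) ∧ ∀ y, y ∉ f '' A → y ∉ g '' A → sw y = y := by
  classical
  let sw : β → β := fun y =>
    if h : ∃ a ∈ A, f a = y then g h.choose else if h : ∃ a ∈ A, g a = y then f h.choose else y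
  have h1 : ∀ a ∈ A, sw (f a) = g a := fun a ha => by
    have h : ∃ b ∈ A, f b = f a := ⟨a, ha, rfl⟩
    simp only [sw, dif_pos h]
    rw [hf h.choose_spec.1 ha h.choose_spec.2]
  have h2 : ∀ a ∈ A, sw (g a) = f a := fun a ha => by
    have h : ∃ b ∈ A, g b = g a := ⟨a, ha, rfl⟩
    have h' : ¬ ∃ b ∈ A, f b = g a := fun ⟨b, hb, e⟩ => hd b hb a ha e
    simp only [sw, dif_pos h, dif_neg h']
    rw [hg h.choose_spec.1 ha h.choose_spec.2]
  have h3 : ∀ y, y ∉ f '' A → y ∉ g '' A → sw y = y := fun y a b => by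
    have a' : ¬ ∃ c ∈ A, f c = y := a
    have b' : ¬ ∃ c ∈ A, g c = y := b
    simp only [sw, dif_neg a', dif_neg b']
  refine ⟨sw, fun y => ?_, h1, h2, h3⟩
  by_cases a : y ∈ f '' A
  · obtain ⟨c, hc, rfl⟩ := a
    rw [h1 c hc, h2 c hc]
  by_cases b : y ∈ g '' A
  · obtain ⟨c, hc, rfl⟩ := b
    rw [h2 c hc, h1 c hc]
  rw [h3 y a b, h3 y a b]

end Pool.Agent.MP_8fc759_al.H44
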