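import Pool.Agent.MP_8fc759_al.H44.Unique

/-!
For every IA-automorphism `β` there is `γ` such that `γ` and `γ * β` are both generic.
-/

namespace Pool.Agent.MP_8fc759_al.H44

open FreeGroup Set

variable {X : Type}

/-- Codes for finite extension types. -/
abbrev Task (X : Type) := Finset X × Finset X × Finset (X × FreeGroup X)

/-- `δ` is an automorphism described by the code `τ` and compatible with `φ`. -/
def Fits (φ : Aut X) (τ : Task X) (δ : Aut X) : Prop :=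
  IA δ ∧ (τ.1 : Set X) ⊆ τ.2.1 ∧ Closed δ τ.1 ∧ Closed δ τ.2.1 ∧
    (∀ x ∈ (τ.1 : Set X), δ (of x) = φ (of x)) ∧
    (τ.2.2 : Set (X × FreeGroup X)) = (fun t => (t, δ (of t))) '' τ.2.1

/-- The task `τ` is realized inside `V`, with new letters from `N`. -/
def Realized (φ : Aut X) (τ : Task X) (V N : Set X) : Prop :=
  (τ.1 : Set X) ⊆ V ∧ N ⊆ V ∧ ∀ δ, Fits φ τ δ →
    ∃ j : X → X, InjOn j τ.2.1 ∧ (∀ s ∈ (τ.1 : Set X), j s = s) ∧
      (∀ t ∈ (τ.2.1 : Set X) \ τ.1, j t ∈ N) ∧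
      ∀ t ∈ (τ.2.1 : Set X), φ (of (j t)) = FreeGroup.map j (δ (of t))

lemma Realized.congr {φ ψ : Aut X} {τ : Task X} {V N N' : Set X} (h : Realized φ τ V N)
    (e : ∀ v ∈ V, φ (of v) = ψ (of v)) (hN : N ⊆ N') : Realized ψ τ (V ∪ N') N' := by
  refine ⟨h.1.trans subset_union_left, subset_union_right, fun δ hδ => ?_⟩
  obtain ⟨a1, a2, a3, a4, a5, a6⟩ := hδ
  obtain ⟨j, b1, b2, b3, b4⟩ := h.2.2 δ
    ⟨a1, a2, a3, a4, fun x hx => (a5 x hx).trans (e x (h.1 hx)).symm, a6⟩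
  refine ⟨j, b1, b2, fun t ht => hN (b3 t ht), fun t ht => ?_⟩
  rw [← b4 t ht, e]
  by_cases hs : t ∈ (τ.1 : Set X)
  · rw [b2 t hs]; exact h.1 hs
  · exact h.2.1 (b3 t ⟨ht, hs⟩)

lemma infinite_compl [Infinite X] {S : Set X} (hS : Cardinal.mk S < Cardinal.mk X) :
    Sᶜ.Infinite := by
  rw [← infinite_coe_iff, Cardinal.infinite_iff, Cardinal.mk_compl_of_infinite S hS]
  exact Cardinal.aleph0_le_mk X

lemma extend_realize [Infinite X] (φ : Aut X) (hφ : IA φ) (S A : Set X) (hS : Closed φ S)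
    (hA : A.Finite) (hlt : Cardinal.mk S < Cardinal.mk X) (τ : Task X) :
    ∃ (ψ : Aut X) (M : Set X), IA ψ ∧ M.Finite ∧ (∀ x ∈ S ∪ A, ψ (of x) = φ (of x)) ∧
      A ⊆ S ∪ M ∧ Closed ψ (S ∪ M) ∧ Realized ψ τ (S ∪ M) ((S ∪ M) \ (S ∪ A)) := by
  classical
  obtain ⟨ψ, hψ, hψ1, M, hM, hAM, hc⟩ := exists_extension φ hφ S (A ∪ τ.1) hS
    (hA.union τ.1.finite_toSet) (infinite_compl hlt)
  have hψ2 : ∀ x ∈ S ∪ A, ψ (of x) = φ (of x) := fun x hx =>
    hψ1 x (union_subset_union_right S subset_union_left hx)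
  have hA' : A ⊆ S ∪ M := subset_union_left.trans hAM
  have hτ : (τ.1 : Set X) ⊆ S ∪ M := subset_union_right.trans hAM
  by_cases hex : ∃ δ, Fits ψ τ δ
  swap
  · exact ⟨ψ, M, hψ, hM, hψ2, hA', hc, hτ, sdiff_subset, fun δ hδ => absurd ⟨δ, hδ⟩ hex⟩
  obtain ⟨δ, a1, a2, a3, a4, a5, a6⟩ := hex
  obtain ⟨j0, hj1, hj2⟩ := exists_fresh τ.2.1.finite_toSet
    (infinite_compl (mk_union_finite_lt hlt hM))
  obtain ⟨π, hπ⟩ := exists_perm_extend (fun y => if y ∈ (τ.1 : Set X) then y else j0 y) τ.2.1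
    (by
      intro a ha b hb hab
      by_cases h1 : a ∈ (τ.1 : Set X) <;> by_cases h2 : b ∈ (τ.1 : Set X)
      · simpa only [if_pos h1, if_pos h2] using hab
      · simp only [if_pos h1, if_neg h2] at hab
        exact absurd (hτ h1) (hab ▸ hj2 b hb)
      · simp only [if_neg h1, if_pos h2] at hab
        exact absurd (hτ h2) (hab ▸ hj2 a ha)
      · simp only [if_neg h1, if_neg h2] at hab
        exact hj1 ha hb hab)
    (τ.2.1.finite_toSet.lt_aleph0.trans_le (Cardinal.aleph0_le_mk X))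
  have p1 : ∀ s ∈ (τ.1 : Set X), π s = s := fun s hs => by rw [hπ s (a2 hs), if_pos hs]
  have p2 : ∀ t ∈ (τ.2.1 : Set X) \ τ.1, π t ∉ S ∪ M := fun t ht => by
    rw [hπ t ht.1, if_neg ht.2]; exact hj2 t ht.1
  set δ' : Aut X := permAut π * δ * (permAut π)⁻¹ with hδ'
  have c1 : Closed δ' (π '' τ.2.1) := a4.conj π
  have c2 : Closed ψ τ.1 := a3.congr a5
  have c3 : ∀ s ∈ (τ.1 : Set X), ψ (of s) = δ' (of s) := fun s hs => by
    conv_rhs => rw [← p1 s hs, hδ', conj_apply]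
    rw [← a5 s hs]
    exact (fix_of_Fs (FreeGroup.map π) (fun x hx => by rw [map.of, p1 x hx]) (a3 s hs).1).symm
  have c4 : ∀ x ∈ S ∪ M, x ∈ π '' τ.2.1 → x ∈ (τ.1 : Set X) := by
    rintro _ hx ⟨t, ht, rfl⟩
    by_cases h : t ∈ (τ.1 : Set X)
    · rw [p1 t h]; exact h
    · exact absurd hx (p2 t ⟨ht, h⟩)
  obtain ⟨θ, hθ, hθ1, -⟩ := glue (ι := Bool) (fun b => cond b ψ δ')
    (fun b => cond b (S ∪ M) (π '' τ.2.1)) (by rintro (_ | _); exacts [c1, hc])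
    (by rintro (_ | _); exacts [a1.conj _, hψ])
    (by
      rintro (_ | _) (_ | _) x h1 h2
      · exact ⟨rfl, rfl⟩
      · exact ⟨(c3 x (c4 x h2 h1)).symm, (c2.inv_eq c3 (c4 x h2 h1)).symm⟩
      · exact ⟨c3 x (c4 x h1 h2), c2.inv_eq c3 (c4 x h1 h2)⟩
      · exact ⟨rfl, rfl⟩)
  have t1 : ∀ x ∈ S ∪ M, θ (of x) = ψ (of x) := hθ1 true
  have t2 : ∀ x ∈ π '' τ.2.1, θ (of x) = δ' (of x) := hθ1 false
  have hSA : S ∪ A ⊆ S ∪ M := union_subset subset_union_left hA'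
  have hMM : S ∪ M ⊆ S ∪ (M ∪ π '' τ.2.1) := union_subset_union_right S subset_union_left
  refine ⟨θ, M ∪ π '' τ.2.1, hθ, hM.union (τ.2.1.finite_toSet.image π),
    fun x hx => (t1 x (hSA hx)).trans (hψ2 x hx), hA'.trans hMM, ?_, hτ.trans hMM, sdiff_subset,
    fun δ1 hδ1 => ⟨π, π.injective.injOn, p1, fun t ht =>
      ⟨Or.inr (Or.inr ⟨t, ht.1, rfl⟩), fun h => p2 t ht (hSA h)⟩, fun t ht => ?_⟩⟩
  · rw [← union_assoc]
    exact (hc.congr fun x hx => (t1 x hx).symm).union (c1.congr fun x hx => (t2 x hx).symm)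
  · have : (t, δ1 (of t)) ∈ (fun t => (t, δ (of t))) '' (τ.2.1 : Set X) := by
      rw [← a6, hδ1.2.2.2.2.2]; exact ⟨t, ht, rfl⟩
    obtain ⟨t', -, e⟩ := this
    obtain ⟨rfl, e'⟩ := Prod.mk.inj e
    rw [t2 _ ⟨t', ht, rfl⟩, hδ', conj_apply, e']

lemma rich_of_realized [Infinite X] {γ : Aut X}
    (h : ∀ (τ : Task X) (W : Set X), Cardinal.mk W < Cardinal.mk X →
      ∃ V N, Realized γ τ V N ∧ Disjoint N W) : Rich γ := by
  classical
  intro δ S T a1 hT a2 a3 a4 a5 W hW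
  have hS := hT.subset a2
  obtain ⟨V, N, hr, hd⟩ := h (hS.toFinset, hT.toFinset,
    (hT.image fun t => (t, δ (of t))).toFinset) W hW
  obtain ⟨j, b1, b2, b3, b4⟩ := hr.2.2 δ (by
    simp only [Fits, Finite.coe_toFinset]
    exact ⟨a1, a2, a3, a4, a5, trivial⟩)
  simp only [Finite.coe_toFinset] at b1 b2 b3 b4
  exact ⟨j, b1, b2, fun t ht hw => hd.ne_of_mem (b3 t ht) hw rfl, b4⟩

theorem exists_generic_pair [Infinite X] (β : Aut X) (hβ : IA β) :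
    ∃ γ : Aut X, Generic γ ∧ Generic (γ * β) := by
  classical
  let P := {p : Set X × Aut X // IA p.2 ∧ LF p.2 p.1 ∧
    ∃ S ⊆ p.1, (p.1 \ S).Finite ∧ Closed p.2 S ∧ LF (p.2 * β) S}
  let le : P → P → Prop := fun p q => p.1.1 ⊆ q.1.1 ∧ ∀ s ∈ p.1.1, q.1.2 (of s) = p.1.2 (of s)
  let ll : P → P → Prop := fun p q => le p q ∧ ∀ x ∈ p.1.1, ∃ T : Set X, T.Finite ∧ x ∈ T ∧
    T ⊆ q.1.1 ∧ (∀ t ∈ T, β (of t) ∈ Fs q.1.1) ∧ Closed (q.1.2 * β) T
  obtain ⟨r, hr⟩ := recursion (X := X) (P := P) (ι := Task X)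
    (by simp [Task, Cardinal.mk_finset_of_infinite, Cardinal.mk_freeGroup]) le ll (fun p => p.1.1)
    (fun p q τ => Realized q.1.2 τ q.1.1 (q.1.1 \ p.1.1) ∧
      ∃ V N, (∀ v ∈ V, β (of v) ∈ Fs q.1.1) ∧ N ⊆ q.1.1 \ p.1.1 ∧ Realized (q.1.2 * β) τ V N)
    (fun p => ⟨Subset.rfl, fun _ _ => rfl⟩) (fun _ _ h => h.1)
    (fun p q r h1 h2 => ⟨⟨h1.1.trans h2.1.1, fun s hs => by rw [h2.1.2 s (h1.1 hs), h1.2 s hs]⟩,
      fun x hx => h2.2 x (h1.1 hx)⟩)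
    (fun _ _ h => h.1)
    (fun C hC hC' => by
      obtain ⟨γ, hγ, hγ1, -⟩ := glue (ι := C) (fun p => p.1.1.2) (fun p => p.1.1.1)
        (fun p => p.1.2.2.1.closed) (fun p => p.1.2.1) (fun p q x h1 h2 => by
          rcases hC p.1 p.2 q.1 q.2 with h | h
          · exact ⟨(h.2 x h1).symm, p.1.2.2.1.closed.inv_eq (fun y hy => (h.2 y hy).symm) h1⟩
          · exact ⟨h.2 x h2, (q.1.2.2.1.closed.inv_eq (fun y hy => (h.2 y hy).symm) h2).symm⟩)
      have hsub : ∀ p ∈ C, p.1.1 ⊆ ⋃ p ∈ C, p.1.1 := fun p hp =>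
        subset_biUnion_of_mem (u := fun p : P => p.1.1) hp
      have hLF : LF γ (⋃ p ∈ C, p.1.1) := fun x hx => by
        obtain ⟨p, hp, hx⟩ := mem_iUnion₂.1 hx
        obtain ⟨T, h0, h1, h2, h3⟩ := p.2.2.1 x hx
        exact ⟨T, h0, h1, h2.trans (hsub p hp),
          h3.congr fun y hy => (hγ1 ⟨p, hp⟩ y (h2 hy)).symm⟩
      refine ⟨⟨(⋃ p ∈ C, p.1.1, γ), hγ, hLF, _, Subset.rfl, by simp, hLF.closed, fun x hx => ?_⟩,
        fun p hp => ⟨hsub p hp, hγ1 ⟨p, hp⟩⟩, Subset.rfl⟩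
      obtain ⟨p, hp, hx⟩ := mem_iUnion₂.1 hx
      obtain ⟨q, hq, hpq⟩ := hC' p hp
      obtain ⟨T, h0, h1, h2, h3, h4⟩ := hpq.2 x hx
      refine ⟨T, h0, h1, h2.trans (hsub q hq), h4.congr fun y hy => ?_⟩
      exact (eq_of_Fs γ q.1.2 (hγ1 ⟨q, hq⟩) (h3 y hy)).symm)
    (fun p hp τ => by
      obtain ⟨⟨S1, γ⟩, hγ, hLF, S, hS, hfin, hc, hLF'⟩ := p
      simp only at hγ hLF hS hfin hc hLF' hp
      have hlt : Cardinal.mk S < Cardinal.mk X := (Cardinal.mk_le_mk_of_subset hS).trans_lt hp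
      have hβS : Closed β S := by
        have := hc.inv.mul hLF'.closed
        rwa [inv_mul_cancel_left] at this
      obtain ⟨B1, hB1, hB1'⟩ := exists_finite_support' hfin fun x => β⁻¹ (of x)
      obtain ⟨φ, M1, a1, a2, a3, a4, a5, a6⟩ := extend_realize (γ * β) (hγ.mul hβ) S
        ((S1 \ S) ∪ B1) hLF'.closed (hfin.union hB1) hlt τ
      have hS1 : S1 ⊆ S ∪ ((S1 \ S) ∪ B1) := fun x hx => by
        by_cases h : x ∈ S
        · exact Or.inl h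
        · exact Or.inr (Or.inl ⟨hx, h⟩)
      have hS1' : S1 ⊆ S ∪ M1 := hS1.trans (union_subset subset_union_left a4)
      have e1 : ∀ x ∈ S1, (φ * β⁻¹) (of x) = γ (of x) := fun x hx => by
        have : β⁻¹ (of x) ∈ Fs (S ∪ ((S1 \ S) ∪ B1)) := by
          by_cases h : x ∈ S
          · exact Fs_mono subset_union_left (hβS x h).2
          · exact Fs_mono (subset_union_right.trans subset_union_right) (hB1' x ⟨hx, h⟩)
        rw [MulAut.mul_apply, eq_of_Fs φ (γ * β) a3 this, MulAut.mul_apply, MulAut.apply_inv_self]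
      obtain ⟨B2, hB2, hB2'⟩ := exists_finite_support' a2 fun x => β (of x)
      obtain ⟨ψ, M2, b1, b2, b3, b4, b5, b6⟩ := extend_realize (φ * β⁻¹) (a1.mul hβ.inv) S
        (M1 ∪ B2) (hc.congr fun x hx => (e1 x (hS hx)).symm) (a2.union hB2) hlt τ
      have hM12 : S ∪ (M1 ∪ B2) ⊆ S ∪ M2 := union_subset subset_union_left b4
      have hM1 : S ∪ M1 ⊆ S ∪ (M1 ∪ B2) := union_subset_union_right S subset_union_left
      have hβV : ∀ v ∈ S ∪ M1, β (of v) ∈ Fs (S ∪ (M1 ∪ B2)) := by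
        rintro v (h | h)
        · exact Fs_mono subset_union_left (hβS v h).1
        · exact Fs_mono (subset_union_right.trans subset_union_right) (hB2' v h)
      have e2 : ∀ v ∈ S ∪ M1, φ (of v) = (ψ * β) (of v) := fun v hv => by
        rw [MulAut.mul_apply, eq_of_Fs ψ (φ * β⁻¹) b3 (hβV v hv), MulAut.mul_apply,
          MulAut.inv_apply_self]
      have e3 : ∀ x ∈ S1, ψ (of x) = γ (of x) := fun x hx => by
        rw [b3 x (hM1 (hS1' hx)), e1 x hx]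
      have hsub : S1 ⊆ S ∪ M2 := hS1'.trans (hM1.trans hM12)
      have hfin' : ((S ∪ M2) \ S1).Finite :=
        b2.subset fun x hx => hx.1.resolve_left fun h => hx.2 (hS h)
      have hLFφ : LF φ (S ∪ M1) :=
        (hLF'.congr fun x hx => (a3 x (Or.inl hx)).symm).extend subset_union_left
          (a2.subset fun x hx => hx.1.resolve_left hx.2) a5
      have hLFψ : LF (ψ * β) (S ∪ M1) := hLFφ.congr e2
      refine ⟨⟨(S ∪ M2, ψ), b1, (hLF.congr fun x hx => (e3 x hx).symm).extend hsub hfin' b5,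
        S, subset_union_left, b2.subset fun x hx => hx.1.resolve_left hx.2,
        hc.congr fun x hx => (e3 x (hS hx)).symm,
        hLF'.congr fun x hx => (a3 x (Or.inl hx)).symm.trans (e2 x (Or.inl hx))⟩,
        ⟨⟨hsub, e3⟩, fun x hx => ?_⟩, hfin', ?_, S ∪ M1, (S ∪ M1) \ (S ∪ ((S1 \ S) ∪ B1)),
        fun v hv => Fs_mono hM12 (hβV v hv), sdiff_subset_sdiff (hM1.trans hM12) hS1, ?_⟩
      · obtain ⟨T, h0, h1, h2, h3⟩ := hLFψ x (hS1' hx)
        exact ⟨T, h0, h1, h2.trans (hM1.trans hM12), fun t ht => Fs_mono hM12 (hβV t (h2 ht)), h3⟩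
      · have := b6.congr (ψ := ψ) (fun _ _ => rfl)
          (sdiff_subset_sdiff_right (hS1'.trans hM1) : _ ⊆ (S ∪ M2) \ S1)
        rwa [union_eq_self_of_subset_right sdiff_subset] at this
      · have := a6.congr e2 Subset.rfl
        rwa [union_eq_self_of_subset_right sdiff_subset] at this)
  have h0 : Cardinal.mk (∅ : Set X) < Cardinal.mk X := by
    rw [Cardinal.mk_eq_zero]
    exact Cardinal.aleph0_pos.trans_le (Cardinal.aleph0_le_mk X)
  have hall : r.1.1 = univ := eq_univ_of_forall fun x => by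
    obtain ⟨p, q, h1, h2, -⟩ := hr ({x}, ∅, ∅) ∅ h0
    exact h2.1 (h1.1.1 (by simp))
  obtain ⟨⟨S1, γ⟩, hγ, hLF, S, hS, hfin, hc, hLF'⟩ := r
  simp only at hall
  subst hall
  refine ⟨γ, ⟨hγ, hLF, rich_of_realized fun τ W hW => ?_⟩, hγ.mul hβ,
    hLF'.extend hS hfin (closed_univ _), rich_of_realized fun τ W hW => ?_⟩
  · obtain ⟨p, q, h1, h2, h3⟩ := hr τ W hW
    exact ⟨_, _, h1.1.congr (fun v hv => (h2.2 v hv).symm) Subset.rfl, h3⟩
  · obtain ⟨p, q, ⟨-, V, N, h4, h5, h6⟩, h2, h3⟩ := hr τ W hW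
    refine ⟨_, _, h6.congr (fun v hv => ?_) Subset.rfl, h3.mono_left h5⟩
    exact (eq_of_Fs γ q.1.2 h2.2 (h4 v hv)).symm

end Pool.Agent.MP_8fc759_al.H44
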