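import Pool.Agent.MP_8fc759_al.H44.Basic

/-!
The extension lemma: an IA-automorphism can be changed outside `S` and finitely many further
letters so that a finite extension of `S` becomes closed.  The main step is a stable form of the
Schreier basis theorem, obtained from the universal cocycle of the action on cosets.
-/

namespace Pool.Agent.MP_8fc759_al.H44

open FreeGroup Set

variable {X : Type}

lemma exists_cocycle {Ω H : Type*} [Group H] [MulAction (FreeGroup X) Ω] (φ : Aut X)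
    (e : X → Ω → H) :
    ∃ c : FreeGroup X → Ω → H, (∀ g g' ω, c (g * g') ω = c g (g' • ω) * c g' ω) ∧
      ∀ x ω, c (φ (of x)) ω = e x ω := by
  let perm : X → Equiv.Perm (Ω × H) := fun x =>
    { toFun := fun p => (φ (of x) • p.1, e x p.1 * p.2)
      invFun := fun p => ((φ (of x))⁻¹ • p.1, (e x ((φ (of x))⁻¹ • p.1))⁻¹ * p.2)
      left_inv := fun p => by simp
      right_inv := fun p => by simp }
  let Φ : FreeGroup X →* Equiv.Perm (Ω × H) := lift perm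
  have key : ∀ g : FreeGroup X, ∀ ω h, Φ g (ω, h) = (φ g • ω, (Φ g (ω, 1)).2 * h) := by
    intro g
    induction g using FreeGroup.induction_on with
    | C1 => intro ω h; simp
    | of x => intro ω h; simp [Φ, perm]
    | inv_of x _ =>
      intro ω h
      simp only [Φ, perm, _root_.map_inv, lift_apply_of, Equiv.Perm.inv_def, Equiv.coe_fn_symm_mk,
        mul_one]
    | mul a b ha hb =>
      intro ω h
      simp only [_root_.map_mul, Equiv.Perm.mul_apply]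
      rw [hb ω h, ha, hb ω 1, ha (φ b • ω) (_ * 1)]
      simp [mul_smul, mul_assoc]
  refine ⟨fun g ω => (Φ (φ⁻¹ g) (ω, 1)).2, fun g g' ω => ?_, fun x ω => ?_⟩
  · simp only [_root_.map_mul, Equiv.Perm.mul_apply]
    rw [key (φ⁻¹ g') ω 1, key (φ⁻¹ g)]
    simp
  · simp [Φ, perm]

section cocycle

variable {Ω H : Type*} [Group H] [MulAction (FreeGroup X) Ω] {c : FreeGroup X → Ω → H}

lemma cocycle_one (hc : ∀ g g' ω, c (g * g') ω = c g (g' • ω) * c g' ω) (ω : Ω) : c 1 ω = 1 := by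
  have := hc 1 1 ω
  simpa using this

lemma cocycle_inv (hc : ∀ g g' ω, c (g * g') ω = c g (g' • ω) * c g' ω) (g : FreeGroup X)
    (ω : Ω) : c g⁻¹ ω = (c g (g⁻¹ • ω))⁻¹ := by
  have := hc g g⁻¹ ω
  rw [mul_inv_cancel, cocycle_one hc] at this
  exact eq_inv_of_mul_eq_one_right this.symm

lemma cocycle_map (hc : ∀ g g' ω, c (g * g') ω = c g (g' • ω) * c g' ω) (φ : Aut X)
    (π : H →* FreeGroup X) (u : Ω → FreeGroup X)
    (h : ∀ x ω, π (c (φ (of x)) ω) = (u (φ (of x) • ω))⁻¹ * φ (of x) * u ω) (g : FreeGroup X)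
    (ω : Ω) : π (c g ω) = (u (g • ω))⁻¹ * g * u ω := by
  obtain ⟨g, rfl⟩ := φ.surjective g
  induction g using FreeGroup.induction_on generalizing ω with
  | C1 => simp [cocycle_one hc]
  | of x => exact h x ω
  | inv_of x _ =>
    rw [_root_.map_inv, cocycle_inv hc, _root_.map_inv, h]
    simp [mul_assoc]
  | mul a b ha hb =>
    rw [_root_.map_mul, hc, _root_.map_mul, ha, hb]
    simp [mul_smul, mul_assoc]

end cocycle

/-- Edges of the Schreier graph with both ends in `V`. -/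
def Edge {Ω : Type} [MulAction (FreeGroup X) Ω] (φ : Aut X) (V : Set Ω) : Set ((X × Ω) ⊕ X) :=
  {p | ∃ x ω, p = Sum.inl (x, ω) ∧ ω ∈ V ∧ φ (of x) • ω ∈ V}

lemma Edge_mono {Ω : Type} [MulAction (FreeGroup X) Ω] (φ : Aut X) {V W : Set Ω} (h : V ⊆ W) :
    Edge φ V ⊆ Edge φ W := by
  rintro _ ⟨x, ω, rfl, h1, h2⟩
  exact ⟨x, ω, rfl, h h1, h h2⟩

lemma exists_connected {Ω : Type} [MulAction (FreeGroup X) Ω] (φ : Aut X) (o : Ω)
    {c : FreeGroup X → Ω → FreeGroup ((X × Ω) ⊕ X)}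
    (hc : ∀ g g' ω, c (g * g') ω = c g (g' • ω) * c g' ω)
    (he : ∀ x ω, c (φ (of x)) ω = of (Sum.inl (x, ω))) (g : FreeGroup X) :
    ∃ V : Set Ω, V.Finite ∧ o ∈ V ∧ g • o ∈ V ∧ c g o ∈ Fs (Edge φ V) ∧
      ∀ ω ∈ V, ∃ a : FreeGroup X, a • o = ω ∧ c a o ∈ Fs (Edge φ V) := by
  obtain ⟨g, rfl⟩ := φ.surjective g
  have step : ∀ (g a : FreeGroup X) (V : Set Ω), V.Finite → o ∈ V → g • o ∈ V →
      c g o ∈ Fs (Edge φ V) →
      (∀ ω ∈ V, ∃ a : FreeGroup X, a • o = ω ∧ c a o ∈ Fs (Edge φ V)) →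
      c a (g • o) ∈ Fs (Edge φ (insert ((a * g) • o) V)) →
      ∃ V : Set Ω, V.Finite ∧ o ∈ V ∧ (a * g) • o ∈ V ∧ c (a * g) o ∈ Fs (Edge φ V) ∧
        ∀ ω ∈ V, ∃ a : FreeGroup X, a • o = ω ∧ c a o ∈ Fs (Edge φ V) := by
    intro g a V h0 h1 h2 h3 h4 h5
    have hm := Fs_mono (Edge_mono φ (subset_insert ((a * g) • o) V))
    have h6 : c (a * g) o ∈ Fs (Edge φ (insert ((a * g) • o) V)) := by
      rw [hc]; exact Subgroup.mul_mem _ h5 (hm h3)
    refine ⟨insert ((a * g) • o) V, h0.insert _, Or.inr h1, Or.inl rfl, h6, ?_⟩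
    rintro ω (rfl | hω)
    · exact ⟨a * g, rfl, h6⟩
    · obtain ⟨b, hb1, hb2⟩ := h4 ω hω
      exact ⟨b, hb1, hm hb2⟩
  have hg := mem_Fs_univ g
  induction hg using Subgroup.closure_induction_left with
  | one =>
    refine ⟨{o}, finite_singleton o, rfl, by simp, ?_, ?_⟩
    · rw [_root_.map_one, cocycle_one hc]; exact Subgroup.one_mem _
    · rintro ω rfl
      exact ⟨1, one_smul _ _, by rw [cocycle_one hc]; exact Subgroup.one_mem _⟩
  | mul_left x hx y _ ih =>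
    obtain ⟨x, -, rfl⟩ := hx
    obtain ⟨V, h0, h1, h2, h3, h4⟩ := ih
    rw [_root_.map_mul]
    refine step _ _ V h0 h1 h2 h3 h4 ?_
    rw [he]
    exact of_mem_Fs ⟨x, _, rfl, Or.inr h2, Or.inl (mul_smul _ _ _).symm⟩
  | inv_mul_cancel x hx y _ ih =>
    obtain ⟨x, -, rfl⟩ := hx
    obtain ⟨V, h0, h1, h2, h3, h4⟩ := ih
    rw [_root_.map_mul]
    refine step _ _ V h0 h1 h2 h3 h4 ?_
    rw [_root_.map_inv, cocycle_inv hc, he]
    refine Subgroup.inv_mem _ (of_mem_Fs ⟨x, _, rfl, Or.inl (mul_smul _ _ _).symm, Or.inr ?_⟩)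
    rwa [smul_inv_smul]

lemma exists_tau (φ : Aut X) (hφ : IA φ) (S A : Set X) (hS : ∀ s ∈ S, φ (of s) = of s)
    (hA : A.Finite) (hSA : Disjoint S A) (hinf : Sᶜ.Infinite) :
    ∃ (τ : Aut X) (cp : X → X) (M : Set X), M.Finite ∧ A ⊆ M ∧ InjOn cp A ∧
      (∀ x ∈ A, cp x ∈ M ∧ cp x ∉ S ∧ cp x ∉ A) ∧ (∀ g, τ (τ g) = g) ∧
      (∀ s ∈ S, τ (of s) = of s) ∧ (∀ x ∈ A, τ (of (cp x)) = φ (of x)) ∧ Closed τ (S ∪ M) ∧
      ∀ q : FreeGroup X →* Abelianization (FreeGroup X),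
        (∀ x ∈ A, q (of x) = 1 ∧ q (of (cp x)) = 1) → ∀ g, q (τ g) = q g := by
  classical
  obtain ⟨Y0, hY0, hY0'⟩ := exists_finite_support' hA fun x => φ (of x)
  set Y : Set X := S ∪ (A ∪ Y0) with hY
  let K : Subgroup (FreeGroup X) := Fs Y
  let Ω : Type := FreeGroup X ⧸ K
  let o : Ω := ((1 : FreeGroup X) : FreeGroup X ⧸ K)
  have hK : ∀ g : FreeGroup X, g • o = o ↔ g ∈ K := fun g => by
    rw [← MulAction.mem_stabilizer_iff, MulAction.stabilizer_quotient]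
  obtain ⟨c, hc, he⟩ := exists_cocycle (Ω := Ω) (H := FreeGroup ((X × Ω) ⊕ X)) φ
    fun x ω => of (Sum.inl (x, ω))
  -- the finite connected set of cosets
  obtain ⟨V, hV, hoV, hVY, hVc⟩ : ∃ V : Set Ω, V.Finite ∧ o ∈ V ∧
      (∀ y ∈ Y, c (of y) o ∈ Fs (Edge φ V)) ∧
      ∀ ω ∈ V, ∃ a : FreeGroup X, a • o = ω ∧ c a o ∈ Fs (Edge φ V) := by
    choose W h0 h1 h2 h3 h4 using exists_connected φ o hc he
    refine ⟨W 1 ∪ ⋃ y ∈ A ∪ Y0, W (of y), (h0 1).union ((hA.union hY0).biUnion fun y _ => h0 _),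
      Or.inl (h1 1), ?_, ?_⟩
    · rintro y (hy | hy)
      · have := he y o
        rw [hS y hy] at this
        rw [this]
        refine of_mem_Fs ⟨y, o, rfl, Or.inl (h1 1), Or.inl ?_⟩
        rw [hS y hy, (hK _).2 (of_mem_Fs (Or.inl hy))]
        exact h1 1
      · exact Fs_mono (Edge_mono φ ((subset_biUnion_of_mem (u := fun y => W (of y)) hy).trans
          subset_union_right)) (h3 _)
    · rintro ω (hω | hω)
      · obtain ⟨a, ha, ha'⟩ := h4 1 ω hω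
        exact ⟨a, ha, Fs_mono (Edge_mono φ subset_union_left) ha'⟩
      · obtain ⟨y, hy, hω⟩ := mem_iUnion₂.1 hω
        obtain ⟨a, ha, ha'⟩ := h4 _ ω hω
        exact ⟨a, ha, Fs_mono (Edge_mono φ
          ((subset_biUnion_of_mem (u := fun y => W (of y)) hy).trans subset_union_right)) ha'⟩
  obtain ⟨s, hs1, hs⟩ : ∃ s : Ω → FreeGroup X, s o = 1 ∧
      ∀ ω ∈ V, s ω • o = ω ∧ c (s ω) o ∈ Fs (Edge φ V) := by
    choose! s h1 h2 using hVc
    refine ⟨fun ω => if ω = o then 1 else s ω, if_pos rfl, fun ω hω => ?_⟩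
    by_cases h : ω = o
    · simp only [if_pos h, one_smul, cocycle_one hc]
      exact ⟨h.symm, Subgroup.one_mem _⟩
    · simp only [if_neg h]
      exact ⟨h1 ω hω, h2 ω hω⟩
  -- fresh letters
  have hYinf : Yᶜ.Infinite := by
    rw [hY, compl_union, ← sdiff_eq]
    exact hinf.sdiff (hA.union hY0)
  obtain ⟨z, hz, hzY⟩ := exists_fresh hV hYinf
  obtain ⟨cp, hcp, hcpY⟩ := exists_fresh hA (hYinf.sdiff (hV.image z))
  let t : Ω → FreeGroup X := fun ω => if ω ∈ V ∧ ω ≠ o then of (z ω) else 1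
  have ht0 : t o = 1 := by simp [t]
  let u : Ω → FreeGroup X := fun ω => s ω * (t ω)⁻¹
  have hu0 : u o = 1 := by simp [u, ht0, hs1]
  let π : FreeGroup ((X × Ω) ⊕ X) →* FreeGroup X :=
    lift (Sum.elim (fun p => (u (φ (of p.1) • p.2))⁻¹ * φ (of p.1) * u p.2) of)
  have hπl : ∀ x ω, π (of (Sum.inl (x, ω))) = (u (φ (of x) • ω))⁻¹ * φ (of x) * u ω :=
    fun x ω => by simp only [π, lift_apply_of, Sum.elim_inl]
  have hπr : ∀ x, π (of (Sum.inr x)) = of x := fun x => by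
    simp only [π, lift_apply_of, Sum.elim_inr]
  have hπc := cocycle_map hc φ π u fun x ω => by rw [he, hπl]
  let ρ : FreeGroup X →* FreeGroup ((X × Ω) ⊕ X) := lift fun y =>
    if y ∈ Y then c (of y) o
    else if h : ∃ ω, (ω ∈ V ∧ ω ≠ o) ∧ z ω = y then c (s h.choose) o else of (Sum.inr y)
  have hρY : ∀ y ∈ Y, ρ (of y) = c (of y) o := fun y hy => by
    simp only [ρ, lift_apply_of, if_pos hy]
  have hρz : ∀ ω ∈ V, ω ≠ o → ρ (of (z ω)) = c (s ω) o := fun ω hω hne => by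
    have h : ∃ ω', (ω' ∈ V ∧ ω' ≠ o) ∧ z ω' = z ω := ⟨ω, ⟨hω, hne⟩, rfl⟩
    have h' : z ω ∉ Y := hzY ω hω
    simp only [ρ, lift_apply_of, if_neg h', dif_pos h]
    rw [hz h.choose_spec.1.1 hω h.choose_spec.2]
  have hρr : ∀ y, y ∉ Y → (¬ ∃ ω, (ω ∈ V ∧ ω ≠ o) ∧ z ω = y) → ρ (of y) = of (Sum.inr y) :=
    fun y h1 h2 => by simp only [ρ, lift_apply_of, if_neg h1, dif_neg h2]
  have hρt : ∀ ω ∈ V, ρ (t ω) = c (s ω) o := fun ω hω => by
    by_cases h : ω = o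
    · rw [h, ht0, hs1, _root_.map_one, cocycle_one hc]
    · simp only [t, if_pos (And.intro hω h)]
      exact hρz ω hω h
  have hρK : ∀ g ∈ K, ρ g = c g o := by
    intro g hg
    induction hg using Subgroup.closure_induction with
    | mem x hx => obtain ⟨y, hy, rfl⟩ := hx; exact hρY y hy
    | one => rw [_root_.map_one, cocycle_one hc]
    | mul a b _ hb iha ihb => rw [_root_.map_mul, hc, iha, ihb, (hK b).2 hb]
    | inv a ha iha =>
      rw [_root_.map_inv, cocycle_inv hc, iha, (hK _).2 (K.inv_mem ha)]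
  have hπρ : ∀ g, π (ρ g) = g := by
    intro g
    refine fix_of_Fs (π.comp ρ) (fun y _ => ?_) (mem_Fs_univ g)
    rw [MonoidHom.comp_apply]
    by_cases h1 : y ∈ Y
    · rw [hρY y h1, hπc, (hK _).2 (of_mem_Fs h1), hu0]; simp
    by_cases h2 : ∃ ω, (ω ∈ V ∧ ω ≠ o) ∧ z ω = y
    · obtain ⟨ω, hω, rfl⟩ := h2
      rw [hρz ω hω.1 hω.2, hπc, (hs ω hω.1).1, hu0]
      simp [u, t, if_pos hω]
    · rw [hρr y h1 h2, hπr]
  have hedgeK : ∀ x ω, ω ∈ V → φ (of x) • ω ∈ V →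
      (s (φ (of x) • ω))⁻¹ * φ (of x) * s ω ∈ K := fun x ω h1 h2 => by
    rw [← hK, mul_smul, mul_smul, (hs ω h1).1, inv_smul_eq_iff, (hs _ h2).1]
  have hπedge : ∀ x ω, π (of (Sum.inl (x, ω))) =
      t (φ (of x) • ω) * ((s (φ (of x) • ω))⁻¹ * φ (of x) * s ω) * (t ω)⁻¹ := fun x ω => by
    rw [hπl]; simp only [u]; group
  have hρπ_edge : ∀ p ∈ Edge φ V, ρ (π (of p)) = of p := by
    rintro _ ⟨x, ω, rfl, h1, h2⟩
    have hk := hedgeK x ω h1 h2
    rw [hπedge, _root_.map_mul, _root_.map_mul, _root_.map_inv, hρt _ h1, hρt _ h2, hρK _ hk]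
    have e1 := hc (s (φ (of x) • ω)) ((s (φ (of x) • ω))⁻¹ * φ (of x) * s ω) o
    rw [(hK _).2 hk] at e1
    rw [← e1, show s (φ (of x) • ω) * ((s (φ (of x) • ω))⁻¹ * φ (of x) * s ω) =
      φ (of x) * s ω by group, hc, (hs ω h1).1, he]
    simp
  -- the swap on the big free group
  have hAK : ∀ x ∈ A, φ (of x) • o = o := fun x hx =>
    (hK _).2 (Fs_mono (subset_union_right.trans subset_union_right) (hY0' x hx))
  obtain ⟨sw, hsw, hsw1, hsw2, hsw3⟩ := exists_swap A (fun x => (Sum.inl (x, o) : (X × Ω) ⊕ X))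
    (fun x => Sum.inr (cp x)) (fun a _ b _ h => by simpa using h)
    (fun a ha b hb h => hcp ha hb (by simpa using h)) (fun a _ b _ h => by simp at h)
  have hswE : ∀ R : Set X, cp '' A ⊆ R → ∀ p ∈ Edge φ V ∪ Sum.inr '' R,
      sw p ∈ Edge φ V ∪ Sum.inr '' R := by
    intro R hR p hp
    by_cases h1 : p ∈ (fun x => (Sum.inl (x, o) : (X × Ω) ⊕ X)) '' A
    · obtain ⟨x, hx, rfl⟩ := h1
      rw [hsw1 x hx]
      exact Or.inr ⟨cp x, hR ⟨x, hx, rfl⟩, rfl⟩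
    by_cases h2 : p ∈ (fun x => (Sum.inr (cp x) : (X × Ω) ⊕ X)) '' A
    · obtain ⟨x, hx, rfl⟩ := h2
      rw [hsw2 x hx]
      exact Or.inl ⟨x, o, rfl, hoV, by rw [hAK x hx]; exact hoV⟩
    rwa [hsw3 p h1 h2]
  have hswF : ∀ R : Set X, cp '' A ⊆ R → ∀ g ∈ Fs (Edge φ V ∪ Sum.inr '' R),
      FreeGroup.map sw g ∈ Fs (Edge φ V ∪ Sum.inr '' R) := fun R hR g hg =>
    map_mem_of_Fs (FreeGroup.map sw) (fun p hp => by
      rw [map.of]; exact of_mem_Fs (hswE R hR p hp)) hg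
  let R0 : Set X := {y | y ∉ Y ∧ ¬ ∃ ω, (ω ∈ V ∧ ω ≠ o) ∧ z ω = y}
  have hcpR : cp '' A ⊆ R0 := by
    rintro _ ⟨x, hx, rfl⟩
    exact ⟨(hcpY x hx).1, fun ⟨ω, hω, e⟩ => (hcpY x hx).2 ⟨ω, hω.1, e⟩⟩
  have hρmem : ∀ R : Set X, ∀ y, (y ∈ R0 → y ∈ R) → ρ (of y) ∈ Fs (Edge φ V ∪ Sum.inr '' R) := by
    intro R y hy
    by_cases h1 : y ∈ Y
    · rw [hρY y h1]; exact Fs_mono subset_union_left (hVY y h1)
    by_cases h2 : ∃ ω, (ω ∈ V ∧ ω ≠ o) ∧ z ω = y
    · obtain ⟨ω, hω, rfl⟩ := h2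
      rw [hρz ω hω.1 hω.2]; exact Fs_mono subset_union_left (hs ω hω.1).2
    · rw [hρr y h1 h2]; exact of_mem_Fs (Or.inr ⟨y, hy ⟨h1, h2⟩, rfl⟩)
  have hρπ : ∀ g ∈ Fs (Edge φ V ∪ Sum.inr '' R0), ρ (π g) = g := by
    intro g hg
    refine fix_of_Fs (ρ.comp π) ?_ hg
    rintro p (hp | ⟨y, hy, rfl⟩)
    · exact hρπ_edge p hp
    · rw [MonoidHom.comp_apply, hπr, hρr y hy.1 hy.2]
  let τ0 : FreeGroup X →* FreeGroup X := π.comp ((FreeGroup.map sw).comp ρ)
  have hτ0 : ∀ g, τ0 g = π (FreeGroup.map sw (ρ g)) := fun g => rfl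
  have hττ : ∀ g, τ0 (τ0 g) = g := fun g => by
    have h1 : ρ g ∈ Fs (Edge φ V ∪ Sum.inr '' R0) :=
      map_mem_of_Fs ρ (fun y _ => hρmem R0 y id) (mem_Fs_univ g)
    rw [hτ0, hτ0, hρπ _ (hswF R0 hcpR _ h1), map.comp, hsw.comp_self, map.id, hπρ]
  obtain ⟨τ, hτ, hτ'⟩ := exists_aut τ0 τ0 (fun x => hττ _) (fun x => hττ _)
  let M : Set X := (A ∪ Y0) ∪ (z '' (V \ {o}) ∪ cp '' A)
  have hτM : ∀ y ∈ S ∪ M, τ0 (of y) ∈ Fs (S ∪ M) := by
    intro y hy
    have h1 : ρ (of y) ∈ Fs (Edge φ V ∪ Sum.inr '' (cp '' A)) := by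
      refine hρmem _ y fun h => ?_
      rcases hy with hy | hy | ⟨ω, hω, rfl⟩ | hy
      · exact absurd (Or.inl hy) h.1
      · exact absurd (Or.inr hy) h.1
      · exact absurd ⟨ω, ⟨hω.1, hω.2⟩, rfl⟩ h.2
      · exact hy
    have ht : ∀ ω, t ω ∈ Fs (S ∪ M) := fun ω => by
      by_cases h : ω ∈ V ∧ ω ≠ o
      · simp only [t, if_pos h]
        exact of_mem_Fs (Or.inr (Or.inr (Or.inl ⟨ω, ⟨h.1, h.2⟩, rfl⟩)))
      · simp only [t, if_neg h]; exact Subgroup.one_mem _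
    rw [hτ0]
    refine map_mem_of_Fs π ?_ (hswF _ Subset.rfl _ h1)
    rintro p (⟨x, ω, rfl, h1, h2⟩ | ⟨y, hy, rfl⟩)
    · rw [hπedge]
      exact Subgroup.mul_mem _ (Subgroup.mul_mem _ (ht _)
        (Fs_mono (union_subset_union_right S subset_union_left) (hedgeK x ω h1 h2)))
        (Subgroup.inv_mem _ (ht _))
    · rw [hπr]; exact of_mem_Fs (Or.inr (Or.inr (Or.inr hy)))
  refine ⟨τ, cp, M, (hA.union hY0).union (((hV.subset sdiff_subset).image z).union (hA.image cp)),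
    subset_union_left.trans subset_union_left, hcp,
    fun x hx => ⟨Or.inr (Or.inr ⟨x, hx, rfl⟩), fun h => (hcpY x hx).1 (Or.inl h),
      fun h => (hcpY x hx).1 (Or.inr (Or.inl h))⟩,
    fun g => by rw [hτ, hτ, hττ], fun y hy => ?_, fun x hx => ?_,
    fun y hy => ⟨by rw [hτ]; exact hτM y hy, by rw [hτ']; exact hτM y hy⟩, fun q hq g => ?_⟩
  · have h1 := he y o
    rw [hS y hy] at h1
    rw [hτ, hτ0, hρY y (Or.inl hy), h1, map.of, hsw3, ← h1, hπc,
      (hK _).2 (of_mem_Fs (Or.inl hy)), hu0]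
    · simp
    · rintro ⟨x, hx, e⟩
      have : x = y := by simpa using e
      exact hSA.ne_of_mem hy hx this.symm
    · rintro ⟨x, hx, e⟩
      simp at e
  · have h := hcpR ⟨x, hx, rfl⟩
    rw [hτ, hτ0, hρr _ h.1 h.2, map.of, hsw2 x hx, hπl, hAK x hx, hu0]
    simp
  · have h1 : ∀ x ∈ A, q (π (of (Sum.inl (x, o)))) = 1 := fun x hx => by
      rw [hπl, hAK x hx, hu0, inv_one, one_mul, mul_one, ab_congr q (hφ (of x)), (hq x hx).1]
    have h2 : ∀ x ∈ A, q (π (of (Sum.inr (cp x)))) = 1 := fun x hx => by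
      rw [hπr, (hq x hx).2]
    have h3 : ∀ w, q (π (FreeGroup.map sw w)) = q (π w) := fun w => by
      refine eq_of_Fs (q.comp (π.comp (FreeGroup.map sw))) (q.comp π) (fun p _ => ?_)
        (mem_Fs_univ w)
      simp only [MonoidHom.comp_apply, map.of]
      by_cases a : p ∈ (fun x => (Sum.inl (x, o) : (X × Ω) ⊕ X)) '' A
      · obtain ⟨x, hx, rfl⟩ := a
        rw [hsw1 x hx, h1 x hx, h2 x hx]
      by_cases b : p ∈ (fun x => (Sum.inr (cp x) : (X × Ω) ⊕ X)) '' A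
      · obtain ⟨x, hx, rfl⟩ := b
        rw [hsw2 x hx, h1 x hx, h2 x hx]
      rw [hsw3 p a b]
    rw [hτ, hτ0, h3, hπρ]

/-- The automorphism induced by a permutation of the letters. -/
def permAut (π : Equiv.Perm X) : Aut X := freeGroupCongr π

lemma permAut_apply (π : Equiv.Perm X) (g : FreeGroup X) : permAut π g = FreeGroup.map π g := rfl

lemma permAut_of (π : Equiv.Perm X) (x : X) : permAut π (of x) = of (π x) := rfl

lemma permAut_inv (π : Equiv.Perm X) : (permAut π)⁻¹ = permAut π⁻¹ := rfl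

lemma exists_extension_fix (φ : Aut X) (hφ : IA φ) (S A : Set X) (hS : ∀ s ∈ S, φ (of s) = of s)
    (hA : A.Finite) (hSA : Disjoint S A) (hinf : Sᶜ.Infinite) :
    ∃ ψ : Aut X, IA ψ ∧ (∀ x ∈ S ∪ A, ψ (of x) = φ (of x)) ∧
      ∃ M : Set X, M.Finite ∧ A ⊆ M ∧ Closed ψ (S ∪ M) := by
  classical
  obtain ⟨τ, cp, M, hM, hAM, hcp, hcp', hττ, hτS, hτA, hτc, hτq⟩ :=
    exists_tau φ hφ S A hS hA hSA hinf
  obtain ⟨sw, hsw, hsw1, hsw2, hsw3⟩ := exists_swap A id cp (injOn_id A) hcp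
    (fun a ha b hb h => (hcp' b hb).2.2 (h ▸ ha))
  simp only [id, image_id'] at hsw1 hsw2 hsw3
  let U : Set X := A ∪ cp '' A
  have hUM : U ⊆ S ∪ M := by
    rintro y (hy | ⟨x, hx, rfl⟩)
    · exact Or.inr (hAM hy)
    · exact Or.inr (hcp' x hx).1
  have hSU : ∀ s ∈ S, s ∉ U := by
    rintro s hs (h | ⟨x, hx, rfl⟩)
    · exact hSA.ne_of_mem hs h rfl
    · exact (hcp' x hx).2.1 hs
  have hswU : ∀ y ∈ U, sw y ∈ U := by
    rintro y (hy | ⟨x, hx, rfl⟩)
    · rw [hsw1 y hy]; exact Or.inr ⟨y, hy, rfl⟩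
    · rw [hsw2 x hx]; exact Or.inl hx
  have hswU' : ∀ y, y ∉ U → sw y = y := fun y hy =>
    hsw3 y (fun h => hy (Or.inl h)) (fun h => hy (Or.inr h))
  let σ : Aut X := permAut hsw.toPerm
  have hσ : ∀ y, σ (of y) = of (sw y) := fun y => rfl
  have hσ' : ∀ y, σ⁻¹ (of y) = of (sw y) := fun y => rfl
  have hσc : Closed σ (S ∪ M) := fun y hy => by
    rw [hσ, hσ', and_self]
    by_cases h : y ∈ U
    · exact of_mem_Fs (hUM (hswU y h))
    · rw [hswU' y h]; exact of_mem_Fs hy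
  let θ : Aut X := τ * σ
  have hθ : ∀ g, θ g = τ (σ g) := fun g => rfl
  have hθU : ∀ y ∈ U, Abelianization.of (θ (of y)) = Abelianization.of (of y) := by
    rintro y (hy | ⟨x, hx, rfl⟩)
    · rw [hθ, hσ, hsw1 y hy, hτA y hy, hφ]
    · rw [hθ, hσ, hsw2 x hx]
      have := ab_congr (Abelianization.of.comp τ.toMonoidHom) (hφ (of x))
      simp only [MonoidHom.comp_apply, MulEquiv.coe_toMonoidHom] at this
      rw [← this, ← hτA x hx, hττ]
  have hθU' : ∀ g ∈ Fs U, Abelianization.of (θ g) = Abelianization.of g := fun g hg =>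
    eq_of_Fs (Abelianization.of.comp θ.toMonoidHom) Abelianization.of hθU hg
  have hθq : ∀ y, y ∉ U → Abelianization.of (retr Uᶜ (θ (of y))) = Abelianization.of (of y) := by
    intro y hy
    have := hτq (Abelianization.of.comp (retr Uᶜ)) (fun x hx => by
      simp only [MonoidHom.comp_apply]
      rw [retr_of_notMem (not_not.2 (Or.inl hx)), retr_of_notMem (not_not.2 (Or.inr ⟨x, hx, rfl⟩))]
      simp) (σ (of y))
    simp only [MonoidHom.comp_apply] at this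
    rw [hθ, this, hσ, hswU' y hy, retr_of_mem hy]
  have hdec : ∀ g : FreeGroup X, Abelianization.of g =
      Abelianization.of (retr Uᶜ g) * Abelianization.of (retr U g) := fun g => by
    refine eq_of_Fs Abelianization.of
      (Abelianization.of.comp (retr Uᶜ) * Abelianization.of.comp (retr U)) (fun y _ => ?_)
      (mem_Fs_univ g)
    simp only [MonoidHom.mul_apply, MonoidHom.comp_apply]
    by_cases h : y ∈ U
    · rw [retr_of_notMem (not_not.2 h), retr_of_mem h]; simp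
    · rw [retr_of_mem (S := Uᶜ) h, retr_of_notMem h]; simp
  let w : X → FreeGroup X := fun y => retr U (θ (of y))
  have hw : ∀ y, w y ∈ Fs U := fun y => retr_mem _ _
  let f : FreeGroup X →* FreeGroup X := lift fun y => if y ∈ U then of y else of y * (w y)⁻¹
  let g : FreeGroup X →* FreeGroup X := lift fun y => if y ∈ U then of y else of y * w y
  have hf1 : ∀ y ∈ U, f (of y) = of y := fun y hy => by simp only [f, lift_apply_of, if_pos hy]
  have hg1 : ∀ y ∈ U, g (of y) = of y := fun y hy => by simp only [g, lift_apply_of, if_pos hy]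
  have hf2 : ∀ y, y ∉ U → f (of y) = of y * (w y)⁻¹ := fun y hy => by
    simp only [f, lift_apply_of, if_neg hy]
  have hg2 : ∀ y, y ∉ U → g (of y) = of y * w y := fun y hy => by
    simp only [g, lift_apply_of, if_neg hy]
  obtain ⟨lam, hl, hl'⟩ := exists_aut f g
    (fun y => by
      by_cases h : y ∈ U
      · rw [hg1 y h, hf1 y h]
      · rw [hg2 y h, _root_.map_mul, hf2 y h, fix_of_Fs f hf1 (hw y)]; simp)
    (fun y => by
      by_cases h : y ∈ U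
      · rw [hf1 y h, hg1 y h]
      · rw [hf2 y h, _root_.map_mul, _root_.map_inv, hg2 y h, fix_of_Fs g hg1 (hw y)]; simp)
  have hlc : Closed lam (S ∪ M) := fun y hy => by
    rw [hl, hl']
    by_cases h : y ∈ U
    · rw [hf1 y h, hg1 y h]; exact ⟨of_mem_Fs hy, of_mem_Fs hy⟩
    · rw [hf2 y h, hg2 y h]
      exact ⟨Subgroup.mul_mem _ (of_mem_Fs hy) (Subgroup.inv_mem _ (Fs_mono hUM (hw y))),
        Subgroup.mul_mem _ (of_mem_Fs hy) (Fs_mono hUM (hw y))⟩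
  refine ⟨θ * lam, IA_of_gen fun y => ?_, ?_, M, hM, hAM, (hτc.mul hσc).mul hlc⟩
  · rw [MulAut.mul_apply, hl]
    by_cases h : y ∈ U
    · rw [hf1 y h, hθU y h]
    · rw [hf2 y h, _root_.map_mul, _root_.map_inv, _root_.map_mul, _root_.map_inv, hθU' _ (hw y),
        hdec (θ (of y)), hθq y h]
      simp [w]
  · rintro y (hy | hy)
    · have h := hSU y hy
      have h1 : θ (of y) = of y := by rw [hθ, hσ, hswU' y h, hτS y hy]
      have h2 : w y = 1 := by simp only [w]; rw [h1, retr_of_notMem h]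
      rw [MulAut.mul_apply, hl, hf2 y h, h2, inv_one, mul_one, h1, hS y hy]
    · rw [MulAut.mul_apply, hl, hf1 y (Or.inl hy), hθ, hσ, hsw1 y hy, hτA y hy]

/-- The extension lemma. -/
lemma exists_extension (φ : Aut X) (hφ : IA φ) (S A : Set X) (hS : Closed φ S)
    (hA : A.Finite) (hinf : Sᶜ.Infinite) :
    ∃ ψ : Aut X, IA ψ ∧ (∀ x ∈ S ∪ A, ψ (of x) = φ (of x)) ∧
      ∃ M : Set X, M.Finite ∧ A ⊆ S ∪ M ∧ Closed ψ (S ∪ M) := by
  obtain ⟨δ, hδ, hδ1, hδ2⟩ := glue (ι := Unit) (fun _ => φ) (fun _ => S) (fun _ => hS)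
    (fun _ => hφ) (fun _ _ _ _ _ => ⟨rfl, rfl⟩)
  have hδS : Closed δ S := hS.congr fun x hx => (hδ1 () x hx).symm
  obtain ⟨ψ, hψ, hψ1, M, hM, hAM, hc⟩ := exists_extension_fix (δ⁻¹ * φ) (hδ.inv.mul hφ) S (A \ S)
    (fun s hs => by rw [MulAut.mul_apply, ← hδ1 () s hs, MulAut.inv_apply_self])
    (hA.subset sdiff_subset) disjoint_sdiff_right hinf
  refine ⟨δ * ψ, hδ.mul hψ, fun x hx => ?_, M, hM, fun x hx => ?_, Closed.mul ?_ hc⟩
  · rw [MulAut.mul_apply, hψ1 x (by rwa [union_sdiff_self]), MulAut.mul_apply,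
      MulAut.apply_inv_self]
  · by_cases h : x ∈ S
    · exact Or.inl h
    · exact Or.inr (hAM ⟨hx, h⟩)
  · intro x hx
    by_cases h : x ∈ S
    · exact ⟨Fs_mono subset_union_left (hδS x h).1, Fs_mono subset_union_left (hδS x h).2⟩
    · have e := hδ2 x fun _ => h
      have e' : δ⁻¹ (of x) = of x := by
        conv_lhs => rw [← e]
        rw [MulAut.inv_apply_self]
      rw [e, e']
      exact ⟨of_mem_Fs hx, of_mem_Fs hx⟩

end Pool.Agent.MP_8fc759_al.H44
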