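import Mathlib

/-!
A transfinite recursion of length `mk X` with finite steps and bookkeeping.
-/

namespace Pool.Agent.MP_8fc759_al.H44

open Set Cardinal

lemma exists_rec {W α : Type*} [LT W] [WellFoundedLT W] [Nonempty α]
    (G : ∀ ξ : W, (∀ η, η < ξ → α) → α → Prop) :
    ∃ f : W → α, ∀ ξ, (∃ a, G ξ (fun η _ => f η) a) → G ξ (fun η _ => f η) (f ξ) := by
  refine ⟨WellFounded.fix wellFounded_lt fun ξ prev => Classical.epsilon (G ξ prev),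
    fun ξ h => ?_⟩
  rw [WellFounded.fix_eq]
  exact Classical.epsilon_spec h

lemma mk_biUnion_finite_lt {X W : Type} [Infinite X] (I : Set W) (hI : mk I < mk X)
    (A : W → Set X) (hA : ∀ i ∈ I, (A i).Finite) : mk (⋃ i ∈ I, A i : Set X) < mk X := by
  by_cases h : I.Finite
  · exact (h.biUnion hA).lt_aleph0.trans_le (aleph0_le_mk X)
  · have : Infinite I := Set.Infinite.to_subtype h
    refine (mk_biUnion_le A I).trans_lt (lt_of_le_of_lt ?_ hI)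
    calc mk I * ⨆ x : I, mk (A x.1) ≤ mk I * ℵ₀ := by
          gcongr
          exact ciSup_le' fun x => (hA x.1 x.2).lt_aleph0.le
      _ = mk I := mul_aleph0_eq (aleph0_le_mk I)

theorem recursion {X : Type} [Infinite X] {P ι : Type} [Nonempty ι] (hι : mk ι ≤ mk X)
    (le ll : P → P → Prop) (supp : P → Set X) (Step : P → P → ι → Prop)
    (le_rfl' : ∀ p, le p p)
    (ll_le : ∀ p q, ll p q → le p q) (le_ll : ∀ p q r, le p q → ll q r → ll p r)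
    (supp_mono : ∀ p q, le p q → supp p ⊆ supp q)
    (limit : ∀ C : Set P, (∀ p ∈ C, ∀ q ∈ C, le p q ∨ le q p) → (∀ p ∈ C, ∃ q ∈ C, ll p q) →
      ∃ r, (∀ p ∈ C, le p r) ∧ supp r ⊆ ⋃ p ∈ C, supp p)
    (step : ∀ p, mk (supp p) < mk X → ∀ i, ∃ q, ll p q ∧ (supp q \ supp p).Finite ∧ Step p q i) :
    ∃ r : P, ∀ i (W : Set X), mk W < mk X →
      ∃ p q, Step p q i ∧ le q r ∧ Disjoint (supp q \ supp p) W := by
  classical
  have hP : Nonempty P := by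
    obtain ⟨r, -⟩ := limit ∅ (by simp) (by simp)
    exact ⟨r⟩
  let W0 := (mk X).ord.ToType
  have hno : NoMaxOrder W0 := Cardinal.noMaxOrder (aleph0_le_mk X)
  obtain ⟨e⟩ : Nonempty (W0 ≃ ι × X) := by
    rw [← Cardinal.eq, mk_ord_toType, mk_prod, lift_id, lift_id,
      mul_eq_right (aleph0_le_mk X) hι (mk_ne_zero ι)]
  obtain ⟨F, hF⟩ := exists_rec (W := W0) (α := P × P) fun ξ prev a =>
    (∀ η h, le (prev η h).2 a.1) ∧ (∀ x ∈ supp a.1, ∃ η h, x ∈ supp (prev η h).2) ∧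
      ll a.1 a.2 ∧ (supp a.2 \ supp a.1).Finite ∧ Step a.1 a.2 (e ξ).1
  -- an upper bound for a lower set of stages at which the recursion has worked
  have hub : ∀ I : Set W0, (∀ ξ ∈ I, (∀ η < ξ, le (F η).2 (F ξ).1) ∧ ll (F ξ).1 (F ξ).2) →
      ∃ r, (∀ η ∈ I, le (F η).2 r) ∧ ∀ x ∈ supp r, ∃ η ∈ I, x ∈ supp (F η).2 := by
    intro I hI
    have hlt : ∀ ξ ∈ I, ∀ η < ξ, ll (F η).2 (F ξ).2 := fun ξ hξ η h =>
      le_ll _ _ _ ((hI ξ hξ).1 η h) (hI ξ hξ).2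
    by_cases hmax : ∃ ξ ∈ I, ∀ η ∈ I, η ≤ ξ
    · obtain ⟨ξ, hξ, hm⟩ := hmax
      refine ⟨(F ξ).2, fun η hη => ?_, fun x hx => ⟨ξ, hξ, hx⟩⟩
      rcases (hm η hη).eq_or_lt with rfl | h
      · exact le_rfl' _
      · exact ll_le _ _ (hlt ξ hξ η h)
    · push Not at hmax
      obtain ⟨r, h1, h2⟩ := limit ((fun ξ => (F ξ).2) '' I) (by
        rintro _ ⟨ξ, hξ, rfl⟩ _ ⟨η, hη, rfl⟩
        rcases lt_trichotomy ξ η with h | rfl | h
        · exact Or.inl (ll_le _ _ (hlt η hη ξ h))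
        · exact Or.inl (le_rfl' _)
        · exact Or.inr (ll_le _ _ (hlt ξ hξ η h))) (by
        rintro _ ⟨ξ, hξ, rfl⟩
        obtain ⟨η, hη, h⟩ := hmax ξ hξ
        exact ⟨_, ⟨η, hη, rfl⟩, hlt η hη ξ h⟩)
      refine ⟨r, fun η hη => h1 _ ⟨η, hη, rfl⟩, fun x hx => ?_⟩
      obtain ⟨_, ⟨η, hη, rfl⟩, hx⟩ := mem_iUnion₂.1 (h2 hx)
      exact ⟨η, hη, hx⟩
  have good : ∀ ξ, (∀ η < ξ, le (F η).2 (F ξ).1) ∧
      (∀ x ∈ supp (F ξ).1, ∃ η, ∃ _ : η < ξ, x ∈ supp (F η).2) ∧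
      ll (F ξ).1 (F ξ).2 ∧ (supp (F ξ).2 \ supp (F ξ).1).Finite ∧
      Step (F ξ).1 (F ξ).2 (e ξ).1 := by
    intro ξ
    induction ξ using WellFoundedLT.induction with
    | ind ξ ih =>
    apply hF
    obtain ⟨r, h1, h2⟩ := hub (Iio ξ) fun η hη => ⟨(ih η hη).1, (ih η hη).2.2.1⟩
    have hcov : ∀ η < ξ, supp (F η).2 ⊆ ⋃ ζ ∈ Iio ξ, (supp (F ζ).2 \ supp (F ζ).1) := by
      intro η
      induction η using WellFoundedLT.induction with
      | ind η ihη =>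
      intro hη x hx
      by_cases hx' : x ∈ supp (F η).1
      · obtain ⟨ζ, hζ, hxζ⟩ := (ih η hη).2.1 x hx'
        exact ihη ζ hζ (hζ.trans hη) hxζ
      · exact mem_biUnion (show η ∈ Iio ξ from hη) ⟨hx, hx'⟩
    have hsize : mk (supp r) < mk X := by
      refine lt_of_le_of_lt (mk_le_mk_of_subset fun x hx => ?_)
        (mk_biUnion_finite_lt (Iio ξ) (by simpa [W0] using mk_Iio_lt ξ)
          (fun ζ => supp (F ζ).2 \ supp (F ζ).1) fun η hη => (ih η hη).2.2.2.1)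
      obtain ⟨η, hη, hx⟩ := h2 x hx
      exact hcov η hη hx
    obtain ⟨q, hq1, hq2, hq3⟩ := step r hsize (e ξ).1
    refine ⟨(r, q), fun η h => h1 η h, fun x hx => ?_, hq1, hq2, hq3⟩
    obtain ⟨η, hη, hx⟩ := h2 x hx
    exact ⟨η, hη, hx⟩
  obtain ⟨r, hr, -⟩ := hub univ fun ξ _ => ⟨(good ξ).1, (good ξ).2.2.1⟩
  refine ⟨r, fun i W hW => ?_⟩
  by_contra hcon
  push Not at hcon
  have hmeet : ∀ x : X, ∃ w : W,
      (w : X) ∈ supp (F (e.symm (i, x))).2 \ supp (F (e.symm (i, x))).1 := fun x => by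
    have h1 := (good (e.symm (i, x))).2.2.2.2
    rw [Equiv.apply_symm_apply] at h1
    obtain ⟨w, hw1, hw2⟩ := not_disjoint_iff.1 (hcon _ _ h1 (hr _ trivial))
    exact ⟨⟨w, hw2⟩, hw1⟩
  choose w hw using hmeet
  have hdisj : ∀ ξ η, η < ξ → ∀ y, y ∈ supp (F η).2 \ supp (F η).1 →
      y ∉ supp (F ξ).2 \ supp (F ξ).1 := fun ξ η h y h1 h2 =>
    h2.2 (supp_mono _ _ ((good ξ).1 η h) h1.1)
  have hinj : Function.Injective w := by
    intro x y hxy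
    by_contra hne
    have hne' : e.symm (i, x) ≠ e.symm (i, y) := fun h => hne (by simpa using h)
    rcases lt_or_gt_of_ne hne' with h | h
    · exact hdisj _ _ h _ (hw x) (hxy ▸ hw y)
    · exact hdisj _ _ h _ (hw y) (hxy ▸ hw x)
  exact absurd (mk_le_of_injective hinj) (not_le.2 hW)

end Pool.Agent.MP_8fc759_al.H44
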