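import Pool.Agent.MP_8fc759_al.H44.Extend
import Pool.Agent.MP_8fc759_al.H44.Recursion

/-!
Generic IA-automorphisms, and their uniqueness up to a permutation of the letters.
-/

namespace Pool.Agent.MP_8fc759_al.H44

open FreeGroup Set

variable {X : Type}

/-- Every finite extension type over a finite closed set is realized away from any small set. -/
def Rich (γ : Aut X) : Prop :=
  ∀ (δ : Aut X) (S T : Set X), IA δ → T.Finite → S ⊆ T → Closed δ S → Closed δ T →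
    (∀ x ∈ S, δ (of x) = γ (of x)) → ∀ W : Set X, Cardinal.mk W < Cardinal.mk X →
      ∃ j : X → X, InjOn j T ∧ (∀ s ∈ S, j s = s) ∧ (∀ t ∈ T \ S, j t ∉ W) ∧
        ∀ t ∈ T, γ (of (j t)) = FreeGroup.map j (δ (of t))

/-- Generic IA-automorphisms. -/
def Generic (γ : Aut X) : Prop := IA γ ∧ LF γ univ ∧ Rich γ

lemma exists_perm_extend (f : X → X) (S : Set X) (hf : InjOn f S)
    (hS : Cardinal.mk S < Cardinal.mk X) : ∃ π : Equiv.Perm X, ∀ s ∈ S, π s = f s := by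
  obtain ⟨g, hg⟩ := Cardinal.extend_function_of_lt
    (⟨fun s : S => f s, fun a b h => Subtype.ext (hf a.2 b.2 h)⟩ : S ↪ X) hS ⟨Equiv.refl X⟩
  exact ⟨g, fun s hs => hg ⟨s, hs⟩⟩

lemma map_congr_Fs {f g : X → X} {S : Set X} (h : ∀ s ∈ S, f s = g s) {a : FreeGroup X}
    (ha : a ∈ Fs S) : FreeGroup.map f a = FreeGroup.map g a :=
  eq_of_Fs (FreeGroup.map f) (FreeGroup.map g) (fun x hx => by rw [map.of, map.of, h x hx]) ha

lemma conj_apply (π : Equiv.Perm X) (γ : Aut X) (x : X) :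
    (permAut π * γ * (permAut π)⁻¹) (of (π x)) = FreeGroup.map π (γ (of x)) := by
  rw [MulAut.mul_apply, MulAut.mul_apply, ← permAut_of, MulAut.inv_apply_self, permAut_apply]

lemma Closed.conj {γ : Aut X} {S : Set X} (h : Closed γ S) (π : Equiv.Perm X) :
    Closed (permAut π * γ * (permAut π)⁻¹) (π '' S) := by
  have key : ∀ a ∈ Fs S, FreeGroup.map π a ∈ Fs (π '' S) := fun a ha =>
    map_mem_of_Fs (FreeGroup.map π) (fun x hx => of_mem_Fs (mem_image_of_mem π hx)) ha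
  rintro _ ⟨x, hx, rfl⟩
  refine ⟨by rw [conj_apply]; exact key _ (h x hx).1, ?_⟩
  rw [show (permAut π * γ * (permAut π)⁻¹)⁻¹ = permAut π * γ⁻¹ * (permAut π)⁻¹ by group,
    conj_apply]
  exact key _ (h x hx).2

lemma mk_union_finite_lt [Infinite X] {S T : Set X} (hS : Cardinal.mk S < Cardinal.mk X)
    (hT : T.Finite) : Cardinal.mk (S ∪ T : Set X) < Cardinal.mk X :=
  (Cardinal.mk_union_le S T).trans_lt (Cardinal.add_lt_of_lt (Cardinal.aleph0_le_mk X) hS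
    (hT.lt_aleph0.trans_le (Cardinal.aleph0_le_mk X)))

lemma forth [Infinite X] {γ γ' : Aut X} (hγ : IA γ) (hl : LF γ univ) (hr : Rich γ')
    (π : Equiv.Perm X) (S : Set X) (hS : Cardinal.mk S < Cardinal.mk X) (hc : Closed γ S)
    (hπ : ∀ s ∈ S, γ' (of (π s)) = FreeGroup.map π (γ (of s))) (x : X) :
    ∃ (π' : Equiv.Perm X) (S' : Set X), S ⊆ S' ∧ x ∈ S' ∧ (S' \ S).Finite ∧
      (∀ s ∈ S, π' s = π s) ∧ Closed γ S' ∧
      ∀ s ∈ S', γ' (of (π' s)) = FreeGroup.map π' (γ (of s)) := by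
  classical
  obtain ⟨T, hT, hxT, -, hTc⟩ := hl x trivial
  obtain ⟨j, hj1, hj2, hj3, hj4⟩ := hr (permAut π * γ * (permAut π)⁻¹) (π '' (S ∩ T)) (π '' T)
    (hγ.conj _) (hT.image _) (image_mono inter_subset_right) ((hc.inter hTc).conj π) (hTc.conj π)
    (by rintro _ ⟨s, hs, rfl⟩; rw [conj_apply, hπ s hs.1]) (π '' S)
    (Cardinal.mk_image_le.trans_lt hS)
  let f : X → X := fun y => if y ∈ T then j (π y) else π y
  have hfT : ∀ y ∈ T, f y = j (π y) := fun y hy => if_pos hy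
  have hfS : ∀ y ∈ S, f y = π y := fun y hy => by
    by_cases h : y ∈ T
    · rw [hfT y h, hj2 _ ⟨y, ⟨hy, h⟩, rfl⟩]
    · exact if_neg h
  have hnew : ∀ y ∈ T, y ∉ S → f y ∉ π '' S := fun y hy hyS => by
    rw [hfT y hy]
    refine hj3 _ ⟨⟨y, hy, rfl⟩, ?_⟩
    rintro ⟨z, hz, e⟩
    exact hyS (π.injective e ▸ hz.1)
  have hinj : InjOn f (S ∪ T) := by
    intro a ha b hb hab
    by_cases h1 : a ∈ S <;> by_cases h2 : b ∈ S
    · rw [hfS a h1, hfS b h2] at hab; exact π.injective hab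
    · exact absurd ⟨a, h1, by rw [← hab, hfS a h1]⟩ (hnew b (hb.resolve_left h2) h2)
    · exact absurd ⟨b, h2, by rw [hab, hfS b h2]⟩ (hnew a (ha.resolve_left h1) h1)
    · have ha' := ha.resolve_left h1
      have hb' := hb.resolve_left h2
      rw [hfT a ha', hfT b hb'] at hab
      exact π.injective (hj1 ⟨a, ha', rfl⟩ ⟨b, hb', rfl⟩ hab)
  obtain ⟨π', hπ'⟩ := exists_perm_extend f (S ∪ T) hinj (mk_union_finite_lt hS hT)
  have e1 : ∀ s ∈ S, π' s = π s := fun s hs => by rw [hπ' s (Or.inl hs), hfS s hs]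
  have e2 : ∀ t ∈ T, π' t = j (π t) := fun t ht => by rw [hπ' t (Or.inr ht), hfT t ht]
  refine ⟨π', S ∪ T, subset_union_left, Or.inr hxT, hT.subset fun y hy => hy.1.resolve_left hy.2,
    e1, hc.union hTc, ?_⟩
  rintro s (hs | hs)
  · rw [e1 s hs, hπ s hs, map_congr_Fs e1 (hc s hs).1]
  · rw [e2 s hs, hj4 _ ⟨s, hs, rfl⟩, conj_apply, map.comp]
    exact (map_congr_Fs e2 (hTc s hs).1).symm

lemma flip_pair {γ γ' : Aut X} (π : Equiv.Perm X) {S : Set X} (hc : Closed γ S)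
    (hπ : ∀ s ∈ S, γ' (of (π s)) = FreeGroup.map π (γ (of s))) :
    Closed γ' (π '' S) ∧
      ∀ s ∈ π '' S, γ (of (π.symm s)) = FreeGroup.map π.symm (γ' (of s)) := by
  constructor
  · refine (hc.conj π).congr ?_
    rintro _ ⟨s, hs, rfl⟩
    rw [conj_apply, hπ s hs]
  · rintro _ ⟨s, hs, rfl⟩
    rw [hπ s hs, map.comp, Equiv.symm_apply_apply, Equiv.symm_comp_self, map.id]

lemma back [Infinite X] {γ γ' : Aut X} (hγ : IA γ') (hl : LF γ' univ) (hr : Rich γ)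
    (π : Equiv.Perm X) (S : Set X) (hS : Cardinal.mk S < Cardinal.mk X) (hc : Closed γ S)
    (hπ : ∀ s ∈ S, γ' (of (π s)) = FreeGroup.map π (γ (of s))) (y : X) :
    ∃ (π' : Equiv.Perm X) (S' : Set X), S ⊆ S' ∧ y ∈ π' '' S' ∧ (S' \ S).Finite ∧
      (∀ s ∈ S, π' s = π s) ∧ Closed γ S' ∧
      ∀ s ∈ S', γ' (of (π' s)) = FreeGroup.map π' (γ (of s)) := by
  obtain ⟨h1, h2⟩ := flip_pair π hc hπ
  obtain ⟨ρ, T, a1, a2, a3, a4, a5, a6⟩ := forth hγ hl hr π.symm (π '' S)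
    (Cardinal.mk_image_le.trans_lt hS) h1 h2 y
  obtain ⟨b1, b2⟩ := flip_pair ρ a5 a6
  have e : ∀ s ∈ S, ρ (π s) = s := fun s hs => by
    rw [a4 _ ⟨s, hs, rfl⟩, Equiv.symm_apply_apply]
  refine ⟨ρ.symm, ρ '' T, fun s hs => ⟨π s, a1 ⟨s, hs, rfl⟩, e s hs⟩,
    ⟨ρ y, ⟨y, a2, rfl⟩, ρ.symm_apply_apply y⟩, (a3.image ρ).subset ?_,
    fun s hs => by rw [Equiv.symm_apply_eq, e s hs], b1, b2⟩
  rintro _ ⟨⟨t, ht, rfl⟩, h⟩
  refine ⟨t, ⟨ht, ?_⟩, rfl⟩
  rintro ⟨s, hs, rfl⟩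
  exact h (by rw [e s hs]; exact hs)

theorem Generic.conj [Infinite X] {γ γ' : Aut X} (h : Generic γ) (h' : Generic γ') :
    ∃ π : Aut X, γ' = π * γ * π⁻¹ := by
  classical
  let P := {p : Set X × (X → X) // InjOn p.2 p.1 ∧ Closed γ p.1 ∧
    ∀ s ∈ p.1, γ' (of (p.2 s)) = FreeGroup.map p.2 (γ (of s))}
  let le : P → P → Prop := fun p q => p.1.1 ⊆ q.1.1 ∧ ∀ s ∈ p.1.1, q.1.2 s = p.1.2 s
  obtain ⟨r, hr⟩ := recursion (X := X) (P := P) (ι := X ⊕ X) (by simp) le le (fun p => p.1.1)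
    (fun _ q i => Sum.elim (fun x => x ∈ q.1.1) (fun y => y ∈ q.1.2 '' q.1.1) i)
    (fun p => ⟨Subset.rfl, fun _ _ => rfl⟩) (fun _ _ h => h)
    (fun p q r h1 h2 => ⟨h1.1.trans h2.1, fun s hs => by rw [h2.2 s (h1.1 hs), h1.2 s hs]⟩)
    (fun _ _ h => h.1)
    (fun C hC _ => by
      let f : X → X := fun x => if h : ∃ p ∈ C, x ∈ p.1.1 then h.choose.1.2 x else x
      have hf : ∀ p ∈ C, ∀ x ∈ p.1.1, f x = p.1.2 x := fun p hp x hx => by
        have h : ∃ p ∈ C, x ∈ p.1.1 := ⟨p, hp, hx⟩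
        simp only [f, dif_pos h]
        rcases hC _ h.choose_spec.1 p hp with h1 | h1
        · exact (h1.2 x h.choose_spec.2).symm
        · exact h1.2 x hx
      refine ⟨⟨(⋃ p ∈ C, p.1.1, f), ?_, ?_, ?_⟩, fun p hp =>
        ⟨subset_biUnion_of_mem (u := fun p : P => p.1.1) hp, hf p hp⟩, Subset.rfl⟩
      · intro a ha b hb hab
        obtain ⟨p, hp, ha⟩ := mem_iUnion₂.1 ha
        obtain ⟨q, hq, hb⟩ := mem_iUnion₂.1 hb
        rcases hC p hp q hq with h1 | h1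
        · exact q.2.1 (h1.1 ha) hb (by rw [← hf q hq a (h1.1 ha), ← hf q hq b hb]; exact hab)
        · exact p.2.1 ha (h1.1 hb) (by rw [← hf p hp a ha, ← hf p hp b (h1.1 hb)]; exact hab)
      · refine closed_of_local fun x hx => ?_
        obtain ⟨p, hp, hx⟩ := mem_iUnion₂.1 hx
        exact ⟨p.1.1, hx, subset_biUnion_of_mem (u := fun p : P => p.1.1) hp, p.2.2.1⟩
      · intro s hs
        obtain ⟨p, hp, hs⟩ := mem_iUnion₂.1 hs
        change γ' (of (f s)) = FreeGroup.map f (γ (of s))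
        rw [hf p hp s hs, p.2.2.2 s hs, map_congr_Fs (hf p hp) (p.2.2.1 s hs).1])
    (fun p hp i => by
      obtain ⟨π, hπ⟩ := exists_perm_extend p.1.2 p.1.1 p.2.1 hp
      have hπ' : ∀ s ∈ p.1.1, γ' (of (π s)) = FreeGroup.map π (γ (of s)) := fun s hs => by
        rw [hπ s hs, p.2.2.2 s hs, map_congr_Fs hπ (p.2.2.1 s hs).1]
      rcases i with x | y
      · obtain ⟨π', S', a1, a2, a3, a4, a5, a6⟩ := forth h.1 h.2.1 h'.2.2 π p.1.1 hp p.2.2.1 hπ' x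
        exact ⟨⟨(S', π'), π'.injective.injOn, a5, a6⟩,
          ⟨a1, fun s hs => (a4 s hs).trans (hπ s hs)⟩, a3, a2⟩
      · obtain ⟨π', S', a1, a2, a3, a4, a5, a6⟩ := back h'.1 h'.2.1 h.2.2 π p.1.1 hp p.2.2.1 hπ' y
        exact ⟨⟨(S', π'), π'.injective.injOn, a5, a6⟩,
          ⟨a1, fun s hs => (a4 s hs).trans (hπ s hs)⟩, a3, a2⟩)
  have h0 : Cardinal.mk (∅ : Set X) < Cardinal.mk X := by
    rw [Cardinal.mk_eq_zero]
    exact Cardinal.aleph0_pos.trans_le (Cardinal.aleph0_le_mk X)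
  have hall : ∀ x, x ∈ r.1.1 := fun x => by
    obtain ⟨p, q, h1, h2, -⟩ := hr (Sum.inl x) ∅ h0
    exact h2.1 h1
  have hsurj : Function.Surjective r.1.2 := fun y => by
    obtain ⟨p, q, ⟨x, hx, h1⟩, h2, -⟩ := hr (Sum.inr y) ∅ h0
    exact ⟨x, (h2.2 x hx).trans h1⟩
  let π : Equiv.Perm X :=
    Equiv.ofBijective r.1.2 ⟨fun a b hab => r.2.1 (hall a) (hall b) hab, hsurj⟩
  refine ⟨permAut π, MulEquiv.ext fun g =>
    eq_of_Fs _ _ (fun y _ => ?_) (mem_Fs_univ g)⟩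
  obtain ⟨x, rfl⟩ := π.surjective y
  rw [conj_apply]
  exact r.2.2.2 x (hall x)

end Pool.Agent.MP_8fc759_al.H44
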